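import Pool.Agent.TH604.WG.Data

set_option autoImplicit false

open Set Filter Topology MeasureTheory
open scoped ContDiff

namespace Pool.Agent.TH604.WG

open Pool.Agent.H314.MA (C2)

/-- conditions on the bump -/
structure Bump (a K r0 : ℝ) (B : ℂ → ℝ) : Prop where
  smooth : ContDiff ℝ ∞ B
  nonneg : ∀ y, 0 ≤ B y
  supp : ∀ y, r0 ≤ ‖y‖ → B y = 0
  pos : ∀ y, 0 < 16 * a ^ 2 * K ^ 2 * ‖y‖ ^ 2 + lap B y

theorem lap_continuous {F : ℂ → ℝ} (hF : ContDiff ℝ ∞ F) : Continuous (lap F) := by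
  have two_le : (2 : WithTop ℕ∞) ≤ ((⊤ : ℕ∞) : WithTop ℕ∞) := by norm_cast
  have h1 : ContDiff ℝ 1 (fderiv ℝ F) := (hF.of_le two_le).fderiv_right (m := 1) (by norm_num)
  have h2 : Continuous (fderiv ℝ (fderiv ℝ F)) := h1.continuous_fderiv (by norm_num)
  unfold lap hess
  have h3 : ∀ v w : ℂ, Continuous fun x => fderiv ℝ (fderiv ℝ F) x v w := by
    intro v w
    exact (h2.clm_apply continuous_const).clm_apply continuous_const
  exact (h3 _ _).add (h3 _ _)

theorem exists_bump {a K r0 : ℝ} (ha : 0 < a) (hK : 0 < K) (hr : 0 < r0) :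
    ∃ B, Bump a K r0 B := by
  have two_le : (2 : WithTop ℕ∞) ≤ ((⊤ : ℕ∞) : WithTop ℕ∞) := by norm_cast
  let χ : ContDiffBump (0 : ℂ) := ⟨r0 / 2, r0, by linarith, by linarith⟩
  set F : ℂ → ℝ := fun y => ‖y‖ ^ 2 * χ y with hF
  have hFs : ContDiff ℝ ∞ F := (contDiff_id.norm_sq ℝ).mul χ.contDiff
  obtain ⟨M, hM⟩ := (isCompact_closedBall (0 : ℂ) r0).exists_bound_of_continuousOn
    (lap_continuous hFs).continuousOn
  have hM0 : 0 ≤ M := (norm_nonneg _).trans (hM 0 (Metric.mem_closedBall_self hr.le))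
  set β : ℝ := 4 * a ^ 2 * K ^ 2 * r0 ^ 2 / (M + 1) with hβ
  have hβ0 : 0 < β := by rw [hβ]; positivity
  have hβM : β * M < 4 * a ^ 2 * K ^ 2 * r0 ^ 2 := by
    have h1 : β * (M + 1) = 4 * a ^ 2 * K ^ 2 * r0 ^ 2 := by rw [hβ]; field_simp
    nlinarith
  refine ⟨fun y => β * F y, contDiff_const.mul hFs, ?_, ?_, ?_⟩
  · intro y
    have := χ.nonneg (x := y)
    simp only [hF]
    positivity
  · intro y hy
    have : χ y = 0 := χ.zero_of_le_dist (by simpa using hy)
    simp [hF, this]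
  · intro y
    rw [lap_const_mul β (hFs.contDiffAt.of_le two_le)]
    rcases lt_or_ge ‖y‖ (r0 / 2) with h | h
    · have h1 : F =ᶠ[𝓝 y] fun y => ‖y - 0‖ ^ 2 := by
        have h2 : ∀ᶠ y' in 𝓝 y, ‖y'‖ < r0 / 2 :=
          (continuous_norm.continuousAt (x := y)).eventually (gt_mem_nhds h)
        filter_upwards [h2] with y' hy'
        have : χ y' = 1 := χ.one_of_mem_closedBall (by
          rw [Metric.mem_closedBall, dist_zero_right]
          exact hy'.le)
        simp [hF, this]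
      rw [lap_congr h1, lap_nsq_sub]
      positivity
    · have h3 : 4 * a ^ 2 * K ^ 2 * r0 ^ 2 ≤ 16 * a ^ 2 * K ^ 2 * ‖y‖ ^ 2 := by
        have : r0 ^ 2 / 4 ≤ ‖y‖ ^ 2 := by nlinarith
        have h5 : 0 < 16 * a ^ 2 * K ^ 2 := by positivity
        nlinarith [mul_le_mul_of_nonneg_left this h5.le]
      rcases le_or_gt ‖y‖ r0 with h4 | h4
      · have h5 := hM y (by simpa using h4)
        rw [Real.norm_eq_abs] at h5
        have h6 := (abs_le.1 h5).1
        nlinarith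
      · have h1 : F =ᶠ[𝓝 y] fun _ => 0 := by
          have h2 : ∀ᶠ y' in 𝓝 y, r0 < ‖y'‖ :=
            (continuous_norm.continuousAt (x := y)).eventually (lt_mem_nhds h4)
          filter_upwards [h2] with y' hy'
          have : χ y' = 0 := χ.zero_of_le_dist (by simpa using hy'.le)
          simp [hF, this]
        rw [lap_congr h1, lap_const]
        have : 0 < 4 * a ^ 2 * K ^ 2 * r0 ^ 2 := by positivity
        linarith

theorem Bump.mono {a K r0 : ℝ} {B : ℂ → ℝ} (h : Bump a K r0 B) {b : ℝ} (ha : 0 ≤ a)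
    (hab : a ≤ b) : Bump b K r0 B := by
  refine ⟨h.smooth, h.nonneg, h.supp, fun y => lt_of_lt_of_le (h.pos y) ?_⟩
  have h1 : a ^ 2 ≤ b ^ 2 := pow_le_pow_left₀ ha hab 2
  have h2 : 0 ≤ 16 * K ^ 2 * ‖y‖ ^ 2 := by positivity
  nlinarith [mul_le_mul_of_nonneg_right h1 h2]

variable {b K c C0 : ℝ}

/-- the local form of the boundary potential -/
noncomputable def HB (K c C0 : ℝ) (B : ℂ → ℝ) (r : ℝ) (y : ℂ) : ℝ := GG K c C0 y r + B y

theorem HB_smooth (K c C0 : ℝ) {B : ℂ → ℝ} (hB : ContDiff ℝ ∞ B) (r : ℝ) :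
    ContDiff ℝ ∞ (HB K c C0 B r) := by
  unfold HB GG
  have h0 : ContDiff ℂ ∞ (fun y : ℂ => (r : ℂ) * ff K y) := by unfold ff; fun_prop
  have h1 : ContDiff ℝ ∞ (fun y : ℂ => ‖(r : ℂ) * ff K y‖ ^ 2) :=
    (h0.restrict_scalars ℝ).norm_sq ℝ
  have h2 : ContDiff ℝ ∞ (fun y : ℂ => ‖y‖ ^ 2) := contDiff_id.norm_sq ℝ
  exact ((h1.sub (contDiff_const.mul h2)).add contDiff_const).add hB

theorem lap_HB (K c C0 : ℝ) {B : ℂ → ℝ} (hB : ContDiff ℝ ∞ B) (r : ℝ) (y : ℂ) :
    lap (HB K c C0 B r) y = 16 * r ^ 2 * K ^ 2 * ‖y‖ ^ 2 + lap B y - 4 * c := by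
  have two_le : (2 : WithTop ℕ∞) ≤ ((⊤ : ℕ∞) : WithTop ℕ∞) := by norm_cast
  have h0 : ContDiff ℂ 2 (fun y : ℂ => (r : ℂ) * ff K y) := by unfold ff; fun_prop
  have h1 : ContDiff ℝ 2 (fun y : ℂ => ‖(r : ℂ) * ff K y‖ ^ 2) :=
    (h0.restrict_scalars ℝ).norm_sq ℝ
  have h2 : ContDiff ℝ 2 (fun y : ℂ => ‖y - 0‖ ^ 2) :=
    nsq_contDiff (ContinuousLinearMap.id ℝ ℂ) 0
  have hB2 : ContDiff ℝ 2 B := hB.of_le two_le
  have e : HB K c C0 B r = fun y => ‖(r : ℂ) * ff K y‖ ^ 2 + ((-c) * ‖y - 0‖ ^ 2 + (C0 + B y)) := by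
    funext y
    unfold HB GG
    rw [sub_zero]
    ring
  rw [e, lap_add h1.contDiffAt ((contDiff_const.mul h2).add (contDiff_const.add hB2)).contDiffAt,
    lap_add (contDiff_const.mul h2).contDiffAt (contDiff_const.add hB2).contDiffAt,
    lap_add contDiffAt_const hB2.contDiffAt, lap_const, lap_const_mul _ h2.contDiffAt,
    lap_nsq_sub, lap_holo h0]
  have h3 : deriv (fun y : ℂ => (r : ℂ) * ff K y) y = (r : ℂ) * deriv (ff K) y :=
    deriv_const_mul _ (ff_differentiable K y)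
  rw [h3, deriv_ff]
  rw [norm_mul, norm_neg, norm_mul, norm_mul, Complex.norm_real, Complex.norm_real,
    Complex.norm_ofNat, mul_pow, mul_pow, mul_pow, Real.norm_eq_abs, Real.norm_eq_abs, sq_abs,
    sq_abs]
  ring

theorem PP_cases (P : Par b K c C0) {B : ℂ → ℝ} {r0 a : ℝ} (hB : Bump a K r0 B)
    (hr0 : r0 ≤ 1 / 4) {r : ℝ} (hr : |r| ≤ 2 * b) (x0 : ℂ) :
    (PP K c C0 B r =ᶠ[𝓝 x0] fun x => hh (HB K c C0 B r (x - rd x0))) ∨
    (PP K c C0 B r =ᶠ[𝓝 x0] fun _ => 0) := by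
  rcases per_cases x0 with h1 | ⟨-, h1⟩
  · left
    filter_upwards [h1] with p hp
    unfold PP HB
    rw [hp]
  · right
    filter_upwards [h1] with x hx
    unfold PP
    rw [hB.supp _ (by linarith), add_zero]
    refine hh_of_nonpos (GG_nonpos P hx.le (sub_rd_sq _) ?_)
    rw [Complex.norm_real, Real.norm_eq_abs]
    exact hr

theorem PP_kahler (P : Par b K c C0) {B : ℂ → ℝ} {r0 r : ℝ} (hB : Bump r K r0 B)
    (hr0 : r0 ≤ 1 / 4) (hr : |r| ≤ 2 * b) :
    IsKahlerPotential c (PP K c C0 B r) := by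
  have two_le : (2 : WithTop ℕ∞) ≤ ((⊤ : ℕ∞) : WithTop ℕ∞) := by norm_cast
  have hsm : ContDiff ℝ ∞ (PP K c C0 B r) := by
    rw [contDiff_iff_contDiffAt]
    intro x0
    rcases PP_cases P hB hr0 hr x0 with h1 | h1
    · have h2 : ContDiff ℝ ∞ (fun x => hh (HB K c C0 B r (x - rd x0))) :=
        hh_contDiff.comp ((HB_smooth K c C0 hB.smooth r).comp (contDiff_id.sub contDiff_const))
      exact h2.contDiffAt.congr_of_eventuallyEq h1
    · exact contDiffAt_const.congr_of_eventuallyEq h1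
  refine { smooth := hsm, periodic_one := ?_, periodic_I := ?_, pos := ?_ }
  · intro x
    unfold PP
    rw [sub_rd_add_one]
  · intro x
    unfold PP
    rw [sub_rd_add_I]
  · intro x0
    have h2 : ContDiff ℝ 2 (fun y : ℂ => ‖y - 0‖ ^ 2) :=
      nsq_contDiff (ContinuousLinearMap.id ℝ ℂ) 0
    have e : (fun y => c * ‖y‖ ^ 2 + PP K c C0 B r y) =
        fun y => c * ‖y - 0‖ ^ 2 + PP K c C0 B r y := by
      funext y; rw [sub_zero]
    have hc := P.hc
    rw [e, lap_add (contDiff_const.mul h2).contDiffAt (hsm.contDiffAt.of_le two_le),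
      lap_const_mul _ h2.contDiffAt, lap_nsq_sub]
    rcases PP_cases P hB hr0 hr x0 with h1 | h1
    · rw [lap_congr h1]
      have hHs : ContDiff ℝ 2 (fun x => HB K c C0 B r (x - rd x0)) :=
        ((HB_smooth K c C0 hB.smooth r).of_le two_le).comp (contDiff_id.sub contDiff_const)
      have hl := lap_comp1 (g := hh) (F := fun x => HB K c C0 B r (x - rd x0)) (x := x0)
        (hh_contDiff.contDiffAt.of_le two_le) hHs.contDiffAt
      rw [hl, lap_translate (HB K c C0 B r), lap_HB K c C0 hB.smooth, deriv_hh]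
      set s := Real.smoothTransition (HB K c C0 B r (x0 - rd x0)) with hs
      have s0 : 0 ≤ s := Real.smoothTransition.nonneg _
      have s1 : s ≤ 1 := Real.smoothTransition.le_one _
      have d2 : 0 ≤ deriv Real.smoothTransition (HB K c C0 B r (x0 - rd x0)) :=
        Real.smoothTransition.monotone.deriv_nonneg
      have q3 : 0 ≤ deriv Real.smoothTransition (HB K c C0 B r (x0 - rd x0)) *
          ((fderiv ℝ (fun x => HB K c C0 B r (x - rd x0)) x0 1) ^ 2 +
          (fderiv ℝ (fun x => HB K c C0 B r (x - rd x0)) x0 Complex.I) ^ 2) := by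
        positivity
      have hp := hB.pos (x0 - rd x0)
      rcases s0.eq_or_lt with h | h
      · rw [← h]
        linarith
      · have q1 : 0 ≤ (1 - s) * (4 * c) := mul_nonneg (by linarith) (by positivity)
        have q2 := mul_pos h hp
        nlinarith
    · rw [lap_congr h1, lap_const]
      linarith

end Pool.Agent.TH604.WG
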