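import Pool.Agent.TH604.WG.Bump

set_option autoImplicit false

open Set Filter Topology MeasureTheory
open scoped ContDiff

namespace Pool.Agent.TH604.WG

open Pool.Agent.H314.MA (C2)

/-- every point may be moved into the fundamental square by a lattice translation -/
theorem exists_fund (x : ℂ) : ∃ m n : ℤ, x - ((m : ℂ) + (n : ℂ) * Complex.I) ∈
    (Icc (0 : ℝ) 1) ×ℂ (Icc (0 : ℝ) 1) := by
  refine ⟨⌊x.re⌋, ⌊x.im⌋, ?_⟩
  rw [Complex.mem_reProdIm]
  simp only [Complex.sub_re, Complex.add_re, Complex.intCast_re, Complex.mul_re, Complex.I_re,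
    mul_zero, Complex.intCast_im, Complex.I_im, mul_one, sub_self, add_zero, Complex.sub_im,
    Complex.add_im, Complex.mul_im, zero_add]
  exact ⟨⟨by linarith [Int.floor_le x.re], by linarith [Int.lt_floor_add_one x.re]⟩,
    ⟨by linarith [Int.floor_le x.im], by linarith [Int.lt_floor_add_one x.im]⟩⟩

theorem per_lattice {g : ℂ → ℝ} (h1 : ∀ x, g (x + 1) = g x) (hI : ∀ x, g (x + Complex.I) = g x)
    (m n : ℤ) (x : ℂ) : g (x - ((m : ℂ) + (n : ℂ) * Complex.I)) = g x := by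
  have p1 : Function.Periodic g 1 := h1
  have p2 : Function.Periodic g Complex.I := hI
  have q1 := p1.int_mul m
  have q2 := p2.int_mul n
  have q3 := q1.add_period q2
  rw [mul_one] at q3
  exact q3.sub_eq x

/-- the collar estimate -/
theorem collar {c a b : ℝ} (hab : a < b) {φ₁ φ₂ : ℂ → ℝ} {φ : ℂ × ℂ → ℝ}
    (hφ : IsWeakGeodesic c a b φ₁ φ₂ φ) (W : C2 → ℝ)
    (hWc : ∀ p ∈ cls a b, ContinuousAt W p)
    (hW1 : ∀ x z, W (x + 1, z) = W (x, z)) (hWI : ∀ x z, W (x + Complex.I, z) = W (x, z))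
    (hWa : ∀ x z, ‖z‖ = a → W (x, z) ≤ φ₁ x) (hWb : ∀ x z, ‖z‖ = b → W (x, z) ≤ φ₂ x)
    (η : ℝ) (hη : 0 < η) : ∃ a' b', a < a' ∧ b' < b ∧
      ∀ p ∈ opn a b, (‖p.2‖ < a' ∨ b' < ‖p.2‖) → W p ≤ φ p + η := by
  -- neighbourhoods of boundary points
  have hnear : ∀ p : C2, p ∈ cls a b → (‖p.2‖ = a ∨ ‖p.2‖ = b) →
      ∃ O : Set C2, IsOpen O ∧ p ∈ O ∧ ∀ q ∈ O, q ∈ cls a b → W q ≤ φ q + η := by
    rintro ⟨x, z⟩ hp hor
    have hcont : ContinuousWithinAt φ (cls a b) (x, z) ∧ W (x, z) ≤ φ (x, z) := by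
      rcases hor with h | h
      · have := hφ.boundary_a x z h
        exact ⟨this.2, this.1 ▸ hWa x z h⟩
      · have := hφ.boundary_b x z h
        exact ⟨this.2, this.1 ▸ hWb x z h⟩
    have h1 : ContinuousWithinAt (fun q => φ q + η - W q) (cls a b) (x, z) :=
      (hcont.1.add continuousWithinAt_const).sub (hWc _ hp).continuousWithinAt
    have h2 : ∀ᶠ q in 𝓝[cls a b] (x, z), 0 < φ q + η - W q :=
      h1.eventually (lt_mem_nhds (by linarith [hcont.2]))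
    obtain ⟨O, hO, hpO, hsub⟩ := mem_nhdsWithin.1 h2
    exact ⟨O, hO, hpO, fun q hq hqc => by
      have : 0 < φ q + η - W q := hsub ⟨hq, hqc⟩
      linarith⟩
  set T : Set C2 := {p | ∃ O : Set C2, IsOpen O ∧ p ∈ O ∧ ∀ q ∈ O, q ∈ cls a b → W q ≤ φ q + η}
    with hT
  have hTo : IsOpen T := by
    rw [isOpen_iff_forall_mem_open]
    rintro p ⟨O, hO, hpO, h⟩
    exact ⟨O, fun q hq => ⟨O, hO, hq, h⟩, hO, hpO⟩
  set D : Set C2 := ((Icc (0 : ℝ) 1) ×ℂ (Icc (0 : ℝ) 1)) ×ˢ {z : ℂ | a ≤ ‖z‖ ∧ ‖z‖ ≤ b} with hD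
  have hDc : IsCompact D := by
    refine IsCompact.prod (isCompact_Icc.reProdIm isCompact_Icc) ?_
    have h1 : IsClosed {z : ℂ | a ≤ ‖z‖ ∧ ‖z‖ ≤ b} := by
      have e : {z : ℂ | a ≤ ‖z‖ ∧ ‖z‖ ≤ b} = {z | a ≤ ‖z‖} ∩ {z | ‖z‖ ≤ b} := rfl
      rw [e]
      exact (isClosed_le continuous_const continuous_norm).inter
        (isClosed_le continuous_norm continuous_const)
    refine (isCompact_closedBall (0 : ℂ) b).of_isClosed_subset h1 ?_
    intro z hz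
    simpa using hz.2
  have hDT : IsCompact (D \ T) := hDc.diff hTo
  have hDcls : ∀ p ∈ D, p ∈ cls a b := fun p hp => hp.2
  have hmain : ∀ p ∈ opn a b, (∀ q ∈ D, q.2 = p.2 → q ∈ T) → W p ≤ φ p + η := by
    intro p hp hq
    obtain ⟨m, n, hmn⟩ := exists_fund p.1
    set q : C2 := (p.1 - ((m : ℂ) + (n : ℂ) * Complex.I), p.2) with hqd
    have hqD : q ∈ D := ⟨hmn, opn_subset_cls _ _ hp⟩
    obtain ⟨O, -, hqO, hO⟩ := hq q hqD rfl
    have h1 := hO q hqO (hDcls q hqD)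
    have h2 : φ q = φ p := per_lattice (g := fun x => φ (x, p.2)) (fun x => hφ.periodic_one x p.2)
      (fun x => hφ.periodic_I x p.2) m n p.1
    have h3 : W q = W p := per_lattice (g := fun x => W (x, p.2)) (fun x => hW1 x p.2)
      (fun x => hWI x p.2) m n p.1
    rw [h2, h3] at h1
    exact h1
  rcases (D \ T).eq_empty_or_nonempty with he | hne
  · refine ⟨b, a, hab, hab, fun p hp _ => hmain p hp ?_⟩
    intro q hq _
    by_contra hqT
    have : q ∈ D \ T := ⟨hq, hqT⟩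
    rw [he] at this
    exact this
  · have hcn : Continuous fun p : C2 => ‖p.2‖ := by fun_prop
    obtain ⟨p1, hp1, hmin⟩ := hDT.exists_isMinOn hne hcn.continuousOn
    obtain ⟨p2, hp2, hmax⟩ := hDT.exists_isMaxOn hne hcn.continuousOn
    have e1 : ‖p1.2‖ ≠ a := fun h => hp1.2 (hnear p1 (hDcls _ hp1.1) (Or.inl h))
    have e2 : ‖p2.2‖ ≠ b := fun h => hp2.2 (hnear p2 (hDcls _ hp2.1) (Or.inr h))
    refine ⟨‖p1.2‖, ‖p2.2‖, lt_of_le_of_ne (hDcls _ hp1.1).1 (Ne.symm e1),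
      lt_of_le_of_ne (hDcls _ hp2.1).2 e2, fun p hp hor => hmain p hp ?_⟩
    intro q hq hqp
    by_contra hqT
    have h1 : ‖p1.2‖ ≤ ‖q.2‖ := hmin ⟨hq, hqT⟩
    have h2 : ‖q.2‖ ≤ ‖p2.2‖ := hmax ⟨hq, hqT⟩
    rw [hqp] at h1 h2
    rcases hor with h | h
    · linarith
    · linarith

end Pool.Agent.TH604.WG
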