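import Pool.Agent.TH604.WG.Holo

set_option autoImplicit false

open Set Filter Topology MeasureTheory
open scoped ContDiff

namespace Pool.Agent.TH604.WG

open Pool.Agent.H314.MA (C2)

/-- the holomorphic function `1 - K y²` -/
noncomputable def ff (K : ℝ) (y : ℂ) : ℂ := 1 - (K : ℂ) * y ^ 2

/-- the local model `|z f(y)|² - c |y|² + C0` -/
noncomputable def GG (K c C0 : ℝ) (y z : ℂ) : ℝ := ‖z * ff K y‖ ^ 2 - c * ‖y‖ ^ 2 + C0

/-- the global subsolution -/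
noncomputable def WW (K c C0 : ℝ) (p : ℂ × ℂ) : ℝ := hh (GG K c C0 (p.1 - rd p.1) p.2)

/-- the boundary potentials -/
noncomputable def PP (K c C0 : ℝ) (B : ℂ → ℝ) (r : ℝ) (x : ℂ) : ℝ :=
  hh (GG K c C0 (x - rd x) r + B (x - rd x))

/-- conditions on the parameters -/
structure Par (b K c C0 : ℝ) : Prop where
  hb : 0 < b
  hK : 64 ≤ K
  hc : 0 < c
  hC0 : C0 = 1 + c / 64
  hcQ : (2 * b) ^ 2 * (K / 2 + 1) ^ 2 + 1 + c / 64 ≤ c / 16

theorem norm_ff_le {K : ℝ} (hK : 0 ≤ K) (y : ℂ) : ‖ff K y‖ ≤ 1 + K * ‖y‖ ^ 2 := by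
  unfold ff
  refine (norm_sub_le _ _).trans ?_
  rw [norm_mul, norm_pow, Complex.norm_real, Real.norm_eq_abs, abs_of_nonneg hK, norm_one]

theorem le_norm_ff {K : ℝ} (hK : 0 ≤ K) (y : ℂ) : K * ‖y‖ ^ 2 - 1 ≤ ‖ff K y‖ := by
  unfold ff
  have h := norm_sub_norm_le ((K : ℂ) * y ^ 2) 1
  rw [norm_sub_rev, norm_mul, norm_pow, Complex.norm_real, Real.norm_eq_abs, abs_of_nonneg hK,
    norm_one] at h
  exact h

theorem one_sub_le_norm_ff {K : ℝ} (hK : 0 ≤ K) (y : ℂ) : 1 - K * ‖y‖ ^ 2 ≤ ‖ff K y‖ := by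
  unfold ff
  have h := norm_sub_norm_le (1 : ℂ) ((K : ℂ) * y ^ 2)
  rw [norm_mul, norm_pow, Complex.norm_real, Real.norm_eq_abs, abs_of_nonneg hK,
    norm_one] at h
  exact h

theorem ff_contDiff (K : ℝ) : ContDiff ℂ 2 (ff K) := by
  unfold ff; fun_prop

theorem ff_differentiable (K : ℝ) : Differentiable ℂ (ff K) := by
  unfold ff; fun_prop

theorem ff_zero (K : ℝ) : ff K 0 = 1 := by simp [ff]

theorem deriv_ff (K : ℝ) (y : ℂ) : deriv (ff K) y = -(2 * (K : ℂ) * y) := by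
  have h : HasDerivAt (ff K) (0 - (K : ℂ) * (((2 : ℕ) : ℂ) * y ^ (2 - 1) * 1)) y :=
    (hasDerivAt_const y (1 : ℂ)).sub (((hasDerivAt_id y).pow 2).const_mul (K : ℂ))
  rw [h.deriv]
  push_cast
  ring

variable {b K c C0 : ℝ}

theorem GG_nonpos (P : Par b K c C0) {y z : ℂ} (h1 : 1 / 4 ≤ ‖y‖) (h2 : ‖y‖ ^ 2 ≤ 1 / 2)
    (hz : ‖z‖ ≤ 2 * b) : GG K c C0 y z ≤ 0 := by
  have hK0 : 0 ≤ K := by linarith [P.hK]
  have hb := P.hb
  have h3 : ‖z * ff K y‖ ≤ (2 * b) * (K / 2 + 1) := by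
    rw [norm_mul]
    have h4 := norm_ff_le hK0 y
    have h5 : ‖ff K y‖ ≤ K / 2 + 1 := by nlinarith
    exact mul_le_mul hz h5 (norm_nonneg _) (by positivity)
  have h4 : ‖z * ff K y‖ ^ 2 ≤ (2 * b) ^ 2 * (K / 2 + 1) ^ 2 := by
    rw [← mul_pow]
    exact pow_le_pow_left₀ (norm_nonneg _) h3 2
  have h5 : 1 / 16 ≤ ‖y‖ ^ 2 := by nlinarith
  have h6 := P.hcQ
  have h7 := P.hC0
  have h8 : c * (1 / 16) ≤ c * ‖y‖ ^ 2 := mul_le_mul_of_nonneg_left h5 P.hc.le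
  unfold GG
  linarith

theorem GG_one_le (P : Par b K c C0) {y z : ℂ} (h1 : ‖y‖ ≤ 1 / 8) : 1 ≤ GG K c C0 y z := by
  have h2 : ‖y‖ ^ 2 ≤ 1 / 64 := by nlinarith [norm_nonneg y]
  have h3 := mul_le_mul_of_nonneg_left h2 P.hc.le
  have h4 := P.hC0
  have h5 : 0 ≤ ‖z * ff K y‖ ^ 2 := by positivity
  unfold GG
  linarith

/-- the holomorphic function `z f(x - m)` on `ℂ²` -/
noncomputable def hol (K : ℝ) (m : ℂ) (p : C2) : ℂ := p.2 * ff K (p.1 - m)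

theorem hol_contDiff (K : ℝ) (m : ℂ) : ContDiff ℂ 2 (hol K m) := by
  unfold hol ff; fun_prop

theorem hol_smooth (K : ℝ) (m : ℂ) : ContDiff ℝ ∞ (hol K m) := by
  have h : ContDiff ℂ ∞ (hol K m) := by unfold hol ff; fun_prop
  exact h.restrict_scalars ℝ

theorem GGm_smooth (K c C0 : ℝ) (m : ℂ) : ContDiff ℝ ∞ fun p : C2 => GG K c C0 (p.1 - m) p.2 := by
  unfold GG
  have h1 : ContDiff ℝ ∞ (fun p : C2 => ‖hol K m p‖ ^ 2) := (hol_smooth K m).norm_sq ℝ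
  have h2 : ContDiff ℝ ∞ (fun p : C2 => ‖p.1 - m‖ ^ 2) :=
    nsq_contDiff (ContinuousLinearMap.fst ℝ ℂ ℂ) m
  exact (h1.sub (contDiff_const.mul h2)).add contDiff_const

theorem levi_GGm (K c C0 : ℝ) (m : ℂ) (p w : C2) :
    levi (fun p : C2 => GG K c C0 (p.1 - m) p.2) p w =
      ‖fderiv ℂ (hol K m) p w‖ ^ 2 - c * ‖w.1‖ ^ 2 := by
  have h1 : ContDiff ℝ ∞ (fun p : C2 => ‖hol K m p‖ ^ 2) := (hol_smooth K m).norm_sq ℝ
  have two_le : (2 : WithTop ℕ∞) ≤ ((⊤ : ℕ∞) : WithTop ℕ∞) := by norm_cast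
  have e : (fun p : C2 => GG K c C0 (p.1 - m) p.2) =
      fun p => ‖hol K m p‖ ^ 2 + quad (-c) 0 (m, 0) C0 p := by
    funext p
    unfold GG quad hol
    ring
  rw [e, levi_add' _ _ p (h1.contDiffAt.of_le two_le)
    ((quad_contDiff _ _ _ _).contDiffAt.of_le two_le), levi_quad, levi_holo (hol_contDiff K m)]
  ring

theorem WW_cases (P : Par b K c C0) (p0 : C2) (h : ‖p0.2‖ < 2 * b) :
    (WW K c C0 =ᶠ[𝓝 p0] fun p => hh (GG K c C0 (p.1 - rd p0.1) p.2)) ∨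
    (WW K c C0 =ᶠ[𝓝 p0] fun _ => 0) := by
  rcases per_cases p0.1 with h1 | ⟨-, h1⟩
  · left
    have h2 : ∀ᶠ p : C2 in 𝓝 p0, rd p.1 = rd p0.1 := continuous_fst.continuousAt.eventually h1
    filter_upwards [h2] with p hp
    unfold WW
    rw [hp]
  · right
    have h2 : ∀ᶠ p : C2 in 𝓝 p0, 1 / 4 < ‖p.1 - rd p.1‖ := continuous_fst.continuousAt.eventually h1
    have h3 : ∀ᶠ p : C2 in 𝓝 p0, ‖p.2‖ < 2 * b := by
      have hc : ContinuousAt (fun p : C2 => ‖p.2‖) p0 := by fun_prop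
      exact hc.eventually (gt_mem_nhds h)
    filter_upwards [h2, h3] with p hp hp3
    unfold WW
    exact hh_of_nonpos (GG_nonpos P hp.le (sub_rd_sq _) hp3.le)

theorem WW_smooth (P : Par b K c C0) (p0 : C2) (h : ‖p0.2‖ < 2 * b) :
    ContDiffAt ℝ ∞ (WW K c C0) p0 := by
  rcases WW_cases P p0 h with h1 | h1
  · exact (hh_contDiff.comp (GGm_smooth K c C0 (rd p0.1))).contDiffAt.congr_of_eventuallyEq h1
  · exact contDiffAt_const.congr_of_eventuallyEq h1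

theorem WW_levi (P : Par b K c C0) (p0 : C2) (h : ‖p0.2‖ < 2 * b) (ξ : C2) :
    0 ≤ levi (fun p => c * ‖p.1‖ ^ 2 + WW K c C0 p) p0 ξ := by
  have two_le : (2 : WithTop ℕ∞) ≤ ((⊤ : ℕ∞) : WithTop ℕ∞) := by norm_cast
  have e : (fun p : C2 => c * ‖p.1‖ ^ 2 + WW K c C0 p) =
      fun p => quad c 0 0 0 p + WW K c C0 p := by
    funext p
    unfold quad
    simp
  have hc := P.hc
  rw [e, levi_add' _ _ p0 ((quad_contDiff _ _ _ _).contDiffAt.of_le two_le)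
    ((WW_smooth P p0 h).of_le two_le), levi_quad]
  rcases WW_cases P p0 h with h1 | h1
  · rw [levi_congr' h1]
    have hl := levi_comp (g := hh) (F := fun p : C2 => GG K c C0 (p.1 - rd p0.1) p.2) (p := p0)
      (hh_contDiff.contDiffAt.of_le two_le)
      ((GGm_smooth K c C0 (rd p0.1)).contDiffAt.of_le two_le) ξ
    rw [hl, levi_GGm, deriv_hh]
    set s := Real.smoothTransition (GG K c C0 (p0.1 - rd p0.1) p0.2) with hs
    have s0 : 0 ≤ s := Real.smoothTransition.nonneg _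
    have s1 : s ≤ 1 := Real.smoothTransition.le_one _
    have d2 : 0 ≤ deriv Real.smoothTransition (GG K c C0 (p0.1 - rd p0.1) p0.2) :=
      Real.smoothTransition.monotone.deriv_nonneg
    have q1 : 0 ≤ (1 - s) * (c * ‖ξ.1‖ ^ 2) := mul_nonneg (by linarith) (by positivity)
    have q2 : 0 ≤ s * ‖fderiv ℂ (hol K (rd p0.1)) p0 ξ‖ ^ 2 := by positivity
    have q3 : 0 ≤ deriv Real.smoothTransition (GG K c C0 (p0.1 - rd p0.1) p0.2) *
        ((fderiv ℝ (fun p : C2 => GG K c C0 (p.1 - rd p0.1) p.2) p0 ξ) ^ 2 +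
        (fderiv ℝ (fun p : C2 => GG K c C0 (p.1 - rd p0.1) p.2) p0 (Complex.I • ξ)) ^ 2) / 4 := by
      positivity
    nlinarith
  · rw [levi_congr' h1, levi_const]
    positivity

theorem WW_bounded (P : Par b K c C0) {p : C2} (h : ‖p.2‖ ≤ 2 * b) :
    |WW K c C0 p| ≤ |hh ((2 * b) ^ 2 * (K / 2 + 1) ^ 2 + C0)| := by
  have hK0 : 0 ≤ K := by linarith [P.hK]
  have hb := P.hb
  have h0 : 0 ≤ WW K c C0 p := by
    unfold WW
    rcases le_or_gt (GG K c C0 (p.1 - rd p.1) p.2) 0 with h1 | h1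
    · rw [hh_of_nonpos h1]
    · rw [← hh_of_nonpos (le_refl 0)]
      exact hh_mono h1.le
  rw [abs_of_nonneg h0]
  refine le_trans ?_ (le_abs_self _)
  unfold WW
  apply hh_mono
  have h3 : ‖p.2 * ff K (p.1 - rd p.1)‖ ≤ (2 * b) * (K / 2 + 1) := by
    rw [norm_mul]
    have h4 := norm_ff_le hK0 (p.1 - rd p.1)
    have h5 : ‖ff K (p.1 - rd p.1)‖ ≤ K / 2 + 1 := by nlinarith [sub_rd_sq p.1]
    exact mul_le_mul h h5 (norm_nonneg _) (by positivity)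
  have h4 : ‖p.2 * ff K (p.1 - rd p.1)‖ ^ 2 ≤ (2 * b) ^ 2 * (K / 2 + 1) ^ 2 := by
    rw [← mul_pow]
    exact pow_le_pow_left₀ (norm_nonneg _) h3 2
  have h5 : 0 ≤ c * ‖p.1 - rd p.1‖ ^ 2 := by have := P.hc; positivity
  unfold GG
  linarith

theorem WW_add_one (p : C2) : WW K c C0 (p.1 + 1, p.2) = WW K c C0 p := by
  unfold WW
  rw [sub_rd_add_one]

theorem WW_add_I (p : C2) : WW K c C0 (p.1 + Complex.I, p.2) = WW K c C0 p := by
  unfold WW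
  rw [sub_rd_add_I]

end Pool.Agent.TH604.WG
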