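import Mathlib

/-!
# Weak geodesics between Kaehler forms on the complex torus `X = ℂ / ℤ[i]`

Functions on `X` are `ℤ[i]`-periodic functions on the universal cover `ℂ`, and functions on `X × Ā`
are functions on `ℂ × Ā` which are `ℤ[i]`-periodic in the first variable.  The reference form is
`ω = c dd^c |x|²` with a constant `c > 0`; a local potential of `π^* ω + dd^c φ` is
`c |x|² + φ(x, z)`.
-/

set_option autoImplicit false

open Set Filter Topology MeasureTheory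
open scoped ContDiff

namespace Pool.Agent.TH604.WG

/-- The (real) second derivative `D²f(p)(v, w)`. -/
noncomputable def hess {E : Type*} [NormedAddCommGroup E] [NormedSpace ℝ E] (f : E → ℝ)
    (p v w : E) : ℝ := fderiv ℝ (fderiv ℝ f) p v w

/-- The Laplacian `Δf = 4 ∂²f/∂x∂x̄` of a function on `ℂ`. -/
noncomputable def lap (f : ℂ → ℝ) (x : ℂ) : ℝ := hess f x 1 1 + hess f x Complex.I Complex.I

/-- The Levi form `∑ f_{j k̄} w_j w̄_k = (D²f(w, w) + D²f(iw, iw)) / 4` of a function on `ℂ²`. -/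
noncomputable def levi (f : ℂ × ℂ → ℝ) (p w : ℂ × ℂ) : ℝ :=
  (hess f p w w + hess f p (Complex.I • w) (Complex.I • w)) / 4

/-- `∂²f/∂z₁∂z̄₁` -/
noncomputable def f11 (f : ℂ × ℂ → ℝ) (p : ℂ × ℂ) : ℝ :=
  (hess f p (1, 0) (1, 0) + hess f p (Complex.I, 0) (Complex.I, 0)) / 4

/-- `∂²f/∂z₂∂z̄₂` -/
noncomputable def f22 (f : ℂ × ℂ → ℝ) (p : ℂ × ℂ) : ℝ :=
  (hess f p (0, 1) (0, 1) + hess f p (0, Complex.I) (0, Complex.I)) / 4

/-- the real part of `∂²f/∂z₁∂z̄₂` -/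
noncomputable def f12re (f : ℂ × ℂ → ℝ) (p : ℂ × ℂ) : ℝ :=
  (hess f p (1, 0) (0, 1) + hess f p (Complex.I, 0) (0, Complex.I)) / 4

/-- the imaginary part of `∂²f/∂z₁∂z̄₂` -/
noncomputable def f12im (f : ℂ × ℂ → ℝ) (p : ℂ × ℂ) : ℝ :=
  (hess f p (1, 0) (0, Complex.I) - hess f p (Complex.I, 0) (0, 1)) / 4

/-- The determinant `det (∂²f/∂z_j∂z̄_k)` of the complex Hessian of a `C²` function on `ℂ²`; up to a
positive constant it is the density of `(dd^c f)²` with respect to Lebesgue measure. -/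
noncomputable def cdet (f : ℂ × ℂ → ℝ) (p : ℂ × ℂ) : ℝ :=
  f11 f p * f22 f p - f12re f p ^ 2 - f12im f p ^ 2

/-- `u` is a (locally bounded) plurisubharmonic function on the open set `Ω ⊆ ℂ²`: it is upper
semicontinuous and satisfies the sub-mean value inequality on all closed complex discs
`{q + ζ v : |ζ| ≤ 1} ⊆ Ω`. -/
def Psh (Ω : Set (ℂ × ℂ)) (u : ℂ × ℂ → ℝ) : Prop :=
  UpperSemicontinuousOn u Ω ∧
  ∀ q v : ℂ × ℂ, (∀ ζ : ℂ, ‖ζ‖ ≤ 1 → q + ζ • v ∈ Ω) →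
    u q ≤ Real.circleAverage (fun ζ : ℂ => u (q + ζ • v)) 0 1

/-- `(dd^c u)² = 0` on the open set `Ω ⊆ ℂ²` in the sense of Bedford and Taylor, for a locally
bounded plurisubharmonic function `u`: on every open `U` relatively compact in `Ω` the function `u`
is the pointwise limit of a decreasing sequence of smooth plurisubharmonic functions `v_k` whose
Monge-Ampere measures `(dd^c v_k)² = const · cdet (v_k) dVol` converge weakly to `0`. -/
def MongeAmpereZero (Ω : Set (ℂ × ℂ)) (u : ℂ × ℂ → ℝ) : Prop :=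
  ∀ U : Set (ℂ × ℂ), IsOpen U → IsCompact (closure U) → closure U ⊆ Ω →
    ∃ v : ℕ → ℂ × ℂ → ℝ,
      (∀ k, ContDiffOn ℝ ∞ (v k) U) ∧
      (∀ k, ∀ p ∈ U, ∀ w, 0 ≤ levi (v k) p w) ∧
      (∀ p ∈ U, Antitone fun k => v k p) ∧
      (∀ p ∈ U, Tendsto (fun k => v k p) atTop (𝓝 (u p))) ∧
      ∀ χ : ℂ × ℂ → ℝ, Continuous χ → HasCompactSupport χ → tsupport χ ⊆ U →
        Tendsto (fun k => ∫ p, χ p * cdet (v k) p) atTop (𝓝 0)

/-- `φ` is a smooth function on the torus `X = ℂ / ℤ[i]`, given as a periodic function on `ℂ`. -/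
structure IsSmoothOnTorus (φ : ℂ → ℝ) : Prop where
  smooth : ContDiff ℝ ∞ φ
  periodic_one : ∀ x, φ (x + 1) = φ x
  periodic_I : ∀ x, φ (x + Complex.I) = φ x

/-- `φ` is a smooth function on the torus `X = ℂ / ℤ[i]` such that `ω + dd^c φ`, `ω = c dd^c |x|²`,
is a Kaehler form, that is a positive form. -/
structure IsKahlerPotential (c : ℝ) (φ : ℂ → ℝ) : Prop extends IsSmoothOnTorus φ where
  pos : ∀ x, 0 < lap (fun y => c * ‖y‖ ^ 2 + φ y) x

/-- The open set `ℂ × A`, the universal cover in the first variable of `X × A`, with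
`A = {a < |z| < b}`. -/
def opn (a b : ℝ) : Set (ℂ × ℂ) := {p | a < ‖p.2‖ ∧ ‖p.2‖ < b}

/-- The set `ℂ × Ā`, with `Ā = {a ≤ |z| ≤ b}`. -/
def cls (a b : ℝ) : Set (ℂ × ℂ) := {p | a ≤ ‖p.2‖ ∧ ‖p.2‖ ≤ b}

/-- `φ` is the weak geodesic joining `ω + dd^c φ₁` and `ω + dd^c φ₂`, where `ω = c dd^c |x|²`:
a bounded function on `X × Ā` which is continuous up to the boundary, with `φ = φ₁` on
`X × {|z| = a}` and `φ = φ₂` on `X × {|z| = b}`, such that `π^* ω + dd^c φ ≥ 0` and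
`(π^* ω + dd^c φ)² = 0` on `X × A`. -/
structure IsWeakGeodesic (c a b : ℝ) (φ₁ φ₂ : ℂ → ℝ) (φ : ℂ × ℂ → ℝ) : Prop where
  periodic_one : ∀ x z, φ (x + 1, z) = φ (x, z)
  periodic_I : ∀ x z, φ (x + Complex.I, z) = φ (x, z)
  bounded : ∃ M, ∀ p ∈ cls a b, |φ p| ≤ M
  boundary_a : ∀ x z, ‖z‖ = a → φ (x, z) = φ₁ x ∧ ContinuousWithinAt φ (cls a b) (x, z)
  boundary_b : ∀ x z, ‖z‖ = b → φ (x, z) = φ₂ x ∧ ContinuousWithinAt φ (cls a b) (x, z)
  psh : Psh (opn a b) fun p => c * ‖p.1‖ ^ 2 + φ p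
  ma : MongeAmpereZero (opn a b) fun p => c * ‖p.1‖ ^ 2 + φ p

/-- The current `ω + dd^c ψ` on `X`, `ω = c dd^c |x|²`, is strictly positive: for some `ε > 0` one
has `ω + dd^c ψ ≥ ε ω` in the sense of currents, i.e. `(1 - ε) ω + dd^c ψ` is nonnegative on all
nonnegative smooth test functions. -/
def StrictlyPositive (c : ℝ) (ψ : ℂ → ℝ) : Prop :=
  ∃ ε : ℝ, 0 < ε ∧ ∀ χ : ℂ → ℝ, ContDiff ℝ ∞ χ → HasCompactSupport χ → (∀ x, 0 ≤ χ x) →
    0 ≤ ∫ x, ((1 - ε) * (c * ‖x‖ ^ 2) + ψ x) * lap χ x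

end Pool.Agent.TH604.WG
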