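import Pool.Agent.TH604.WG.Defs
import Pool.Agent.H314.MA.Loc
import Pool.Agent.H314.MA.Comp
import Pool.Agent.H314.MA.Chi

set_option autoImplicit false

open Set Filter Topology MeasureTheory
open scoped ContDiff

namespace Pool.Agent.TH604.WG

open Pool.Agent.H314.MA (C2 h11 h22 h12re h12im maDensity mixed chi)

/-! ### Bridges to the library of H314 -/

theorem hess_eq (f : C2 → ℝ) (p v w : C2) : hess f p v w = Pool.Agent.H314.MA.hess f p v w := rfl

theorem levi_eq' (f : C2 → ℝ) (p w : C2) : levi f p w = Pool.Agent.H314.MA.levi f p w := rfl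

theorem cdet_eq (f : C2 → ℝ) (p : C2) : cdet f p = Real.pi ^ 2 / 8 * maDensity f p := by
  unfold maDensity
  have h : cdet f p = h11 f p * h22 f p - h12re f p ^ 2 - h12im f p ^ 2 := rfl
  rw [h]
  have hp : Real.pi ≠ 0 := Real.pi_ne_zero
  field_simp

theorem mixed_zero_integral (χ s : C2 → ℝ) (hs : ContDiff ℝ ∞ s)
    (hχ : ContDiff ℝ ∞ χ) (hc : HasCompactSupport χ) :
    ∫ p, mixed χ s p = 0 := by
  have h := Pool.Agent.H314.MA.integral_mixed (fun _ => (1 : ℝ)) s χ contDiff_const hs hχ hc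
  have hz : ∀ p a b, Pool.Agent.H314.MA.hess (fun _ : C2 => (1 : ℝ)) p a b = 0 := by
    intro p a b
    unfold Pool.Agent.H314.MA.hess
    have h1 : fderiv ℝ (fun _ : C2 => (1 : ℝ)) = fun _ => 0 := by
      funext y; exact fderiv_const_apply _
    rw [h1, fderiv_const_apply]
    rfl
  have h0 : ∀ p, mixed (fun _ : C2 => (1 : ℝ)) s p = 0 := by
    intro p
    unfold mixed h11 h22 h12re h12im
    simp only [hz]
    ring
  simp only [h0, mul_zero, integral_zero, one_mul] at h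
  exact h.symm

/-- the rank one term in the mixed form of a composition -/
noncomputable def qterm (h s : C2 → ℝ) (p : C2) : ℝ :=
  (fderiv ℝ h p (1, 0) ^ 2 + fderiv ℝ h p (Complex.I, 0) ^ 2) / 4 * h22 s p +
  (fderiv ℝ h p (0, 1) ^ 2 + fderiv ℝ h p (0, Complex.I) ^ 2) / 4 * h11 s p -
  2 * ((fderiv ℝ h p (1, 0) * fderiv ℝ h p (0, 1) +
      fderiv ℝ h p (Complex.I, 0) * fderiv ℝ h p (0, Complex.I)) / 4 * h12re s p +
    (fderiv ℝ h p (1, 0) * fderiv ℝ h p (0, Complex.I) -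
      fderiv ℝ h p (Complex.I, 0) * fderiv ℝ h p (0, 1)) / 4 * h12im s p)

theorem mixed_comp (g : ℝ → ℝ) (h s : C2 → ℝ) (p : C2) (hg : ContDiffAt ℝ 2 g (h p))
    (hh : ContDiffAt ℝ 2 h p) :
    mixed (fun y => g (h y)) s p =
      deriv g (h p) * mixed h s p + deriv (deriv g) (h p) * qterm h s p := by
  have hc := fun v w => Pool.Agent.H314.MA.comp1_gen g h p hg hh v w
  unfold mixed qterm
  have e11 : h11 (fun y => g (h y)) p = deriv g (h p) * h11 h p + deriv (deriv g) (h p) *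
      ((fderiv ℝ h p (1, 0) ^ 2 + fderiv ℝ h p (Complex.I, 0) ^ 2) / 4) := by
    unfold h11 Pool.Agent.H314.MA.hess
    rw [hc, hc]; ring
  have e22 : h22 (fun y => g (h y)) p = deriv g (h p) * h22 h p + deriv (deriv g) (h p) *
      ((fderiv ℝ h p (0, 1) ^ 2 + fderiv ℝ h p (0, Complex.I) ^ 2) / 4) := by
    unfold h22 Pool.Agent.H314.MA.hess
    rw [hc, hc]; ring
  have er : h12re (fun y => g (h y)) p = deriv g (h p) * h12re h p + deriv (deriv g) (h p) *
      ((fderiv ℝ h p (1, 0) * fderiv ℝ h p (0, 1) +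
      fderiv ℝ h p (Complex.I, 0) * fderiv ℝ h p (0, Complex.I)) / 4) := by
    unfold h12re Pool.Agent.H314.MA.hess
    rw [hc, hc]; ring
  have ei : h12im (fun y => g (h y)) p = deriv g (h p) * h12im h p + deriv (deriv g) (h p) *
      ((fderiv ℝ h p (1, 0) * fderiv ℝ h p (0, Complex.I) -
      fderiv ℝ h p (Complex.I, 0) * fderiv ℝ h p (0, 1)) / 4) := by
    unfold h12im Pool.Agent.H314.MA.hess
    rw [hc, hc]; ring
  rw [e11, e22, er, ei]
  ring

theorem qterm_nonneg (h s : C2 → ℝ) (p : C2) (hs : ContDiffAt ℝ 2 s p)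
    (hl : ∀ w, 0 ≤ Pool.Agent.H314.MA.levi s p w) : 0 ≤ qterm h s p := by
  obtain ⟨X, hX⟩ : ∃ X, X = fderiv ℝ h p (1, 0) := ⟨_, rfl⟩
  obtain ⟨Y, hY⟩ : ∃ X, X = fderiv ℝ h p (Complex.I, 0) := ⟨_, rfl⟩
  obtain ⟨Z, hZ⟩ : ∃ X, X = fderiv ℝ h p (0, 1) := ⟨_, rfl⟩
  obtain ⟨T, hT⟩ : ∃ X, X = fderiv ℝ h p (0, Complex.I) := ⟨_, rfl⟩
  have k := hl ((⟨Z, -T⟩ : ℂ), (⟨-X, Y⟩ : ℂ))
  rw [Pool.Agent.H314.MA.levi_eq s p hs, ← Complex.normSq_eq_norm_sq,
    ← Complex.normSq_eq_norm_sq, Complex.normSq_mk, Complex.normSq_mk] at k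
  simp only [Complex.mul_re, Complex.mul_im, Complex.conj_re, Complex.conj_im] at k
  unfold qterm
  rw [← hX, ← hY, ← hZ, ← hT]
  nlinarith [k]

theorem mixed_diff (u v : C2 → ℝ) (z : C2) (hu : ContDiffAt ℝ 2 u z) (hv : ContDiffAt ℝ 2 v z) :
    mixed (fun y => u y - v y) (fun y => u y + v y) z = 2 * (cdet u z - cdet v z) := by
  have h := Pool.Agent.H314.MA.maDensity_sub u v z hu hv
  have hp : Real.pi ≠ 0 := Real.pi_ne_zero
  rw [cdet_eq, cdet_eq]
  have h2 : maDensity u z - maDensity v z = 4 / Real.pi ^ 2 *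
      mixed (fun y => u y - v y) (fun y => u y + v y) z := h
  rw [← mul_sub, h2]
  field_simp
  ring

end Pool.Agent.TH604.WG
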