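import Pool.Agent.TH604.WG.Dom1

set_option autoImplicit false

open Set Filter Topology MeasureTheory
open scoped ContDiff

namespace Pool.Agent.TH604.WG

open Pool.Agent.H314.MA (C2 h11 h22 h12re h12im maDensity mixed chi)

/-- extension by zero of `g ∘ h` off the compact set `K` -/
noncomputable def ext0 (K : Set C2) (g : ℝ → ℝ) (h : C2 → ℝ) (p : C2) : ℝ :=
  open scoped Classical in if p ∈ K then g (h p) else 0

section

variable {U K : Set C2} {g : ℝ → ℝ} {h : C2 → ℝ}

theorem ext0_of_notMem {p : C2} (hp : p ∉ K) : ext0 K g h p = 0 := by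
  simp [ext0, hp]

theorem ext0_of_mem {p : C2} (hp : p ∈ K) : ext0 K g h p = g (h p) := by
  simp [ext0, hp]

theorem ext0_on (hg0 : ∀ t, t ≤ 0 → g t = 0) (hout : ∀ p ∈ U, p ∉ K → h p ≤ 0) {p : C2}
    (hp : p ∈ U) : ext0 K g h p = g (h p) := by
  by_cases hk : p ∈ K
  · exact ext0_of_mem hk
  · rw [ext0_of_notMem hk, hg0 _ (hout p hp hk)]

theorem ext0_ev_zero (hK : IsCompact K) {p : C2} (hp : p ∉ K) :
    ext0 K g h =ᶠ[𝓝 p] fun _ => 0 := by
  filter_upwards [hK.isClosed.isOpen_compl.mem_nhds hp] with y hy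
  exact ext0_of_notMem hy

theorem ext0_ev (hU : IsOpen U) (hg0 : ∀ t, t ≤ 0 → g t = 0)
    (hout : ∀ p ∈ U, p ∉ K → h p ≤ 0) {p : C2} (hp : p ∈ U) :
    ext0 K g h =ᶠ[𝓝 p] fun y => g (h y) := by
  filter_upwards [hU.mem_nhds hp] with y hy
  exact ext0_on hg0 hout hy

theorem ext0_hcs (hK : IsCompact K) : HasCompactSupport (ext0 K g h) := by
  apply HasCompactSupport.of_support_subset_isCompact hK
  intro p hp
  by_contra hk
  exact hp (ext0_of_notMem hk)

theorem ext0_contDiff {n : WithTop ℕ∞} (hU : IsOpen U) (hK : IsCompact K) (hKU : K ⊆ U)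
    (hg0 : ∀ t, t ≤ 0 → g t = 0)
    (hout : ∀ p ∈ U, p ∉ K → h p ≤ 0) (hg : ContDiff ℝ n g) (hh : ∀ p ∈ U, ContDiffAt ℝ n h p) :
    ContDiff ℝ n (ext0 K g h) := by
  rw [contDiff_iff_contDiffAt]
  intro p
  by_cases hp : p ∈ K
  · exact (hg.contDiffAt.comp p (hh p (hKU hp))).congr_of_eventuallyEq
      (ext0_ev hU hg0 hout (hKU hp))
  · exact contDiffAt_const.congr_of_eventuallyEq (ext0_ev_zero hK hp)

theorem ext0_cont (hU : IsOpen U) (hK : IsCompact K) (hKU : K ⊆ U)
    (hg0 : ∀ t, t ≤ 0 → g t = 0)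
    (hout : ∀ p ∈ U, p ∉ K → h p ≤ 0) (hg : Continuous g) (hh : ∀ p ∈ U, ContinuousAt h p) :
    Continuous (ext0 K g h) := by
  rw [continuous_iff_continuousAt]
  intro p
  by_cases hp : p ∈ K
  · exact (ContinuousAt.comp hg.continuousAt (hh p (hKU hp))).congr
      (ext0_ev hU hg0 hout (hKU hp)).symm
  · exact continuousAt_const.congr (ext0_ev_zero hK hp).symm

/-- products of a continuous function vanishing off `K` with a function continuous near `K` -/
theorem cont_mul_of (hK : IsCompact K) {G f : C2 → ℝ} (hG : Continuous G)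
    (hG0 : ∀ p, p ∉ K → G p = 0) (hf : ∀ p ∈ K, ContinuousAt f p) :
    Continuous fun p => G p * f p := by
  rw [continuous_iff_continuousAt]
  intro p
  by_cases hp : p ∈ K
  · exact hG.continuousAt.mul (hf p hp)
  · have : (fun p => G p * f p) =ᶠ[𝓝 p] fun _ => 0 := by
      filter_upwards [hK.isClosed.isOpen_compl.mem_nhds hp] with y hy
      rw [hG0 y hy, zero_mul]
    exact continuousAt_const.congr this.symm

theorem hcs_mul_of (hK : IsCompact K) {G f : C2 → ℝ}
    (hG0 : ∀ p, p ∉ K → G p = 0) : HasCompactSupport fun p => G p * f p := by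
  apply HasCompactSupport.of_support_subset_isCompact hK
  intro p hp
  by_contra hk
  exact hp (by simp [hG0 p hk])

end

theorem cdet_contAt (f : C2 → ℝ) (p : C2) (hf : ContDiffAt ℝ 2 f p) : ContinuousAt (cdet f) p := by
  have h : cdet f = fun p => Real.pi ^ 2 / 8 * maDensity f p := by
    funext y; exact cdet_eq f y
  rw [h]
  exact continuousAt_const.mul (Pool.Agent.H314.MA.continuousAt_maDensity f p hf)

theorem cdet_nonneg (f : C2 → ℝ) (p : C2) (hf : ContDiffAt ℝ 2 f p)
    (h : ∀ w, 0 ≤ levi f p w) : 0 ≤ cdet f p := by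
  rw [cdet_eq]
  have := Pool.Agent.H314.MA.maDensity_nonneg f p hf h
  positivity

theorem cdet_pos (f : C2 → ℝ) (p : C2) (hf : ContDiffAt ℝ 2 f p)
    (h : ∀ w, w ≠ 0 → 0 < levi f p w) : 0 < cdet f p := by
  rw [cdet_eq]
  have := Pool.Agent.H314.MA.maDensity_pos f p hf h
  positivity

/-- the comparison inequality for smooth functions -/
theorem comparison_smooth {U K : Set C2} (hU : IsOpen U) (hK : IsCompact K) (hKU : K ⊆ U)
    (w v : C2 → ℝ) (hw : ∀ p ∈ U, ContDiffAt ℝ ∞ w p) (hv : ∀ p ∈ U, ContDiffAt ℝ ∞ v p)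
    (hwl : ∀ p ∈ U, ∀ ξ, 0 ≤ levi w p ξ) (hvl : ∀ p ∈ U, ∀ ξ, 0 ≤ levi v p ξ) (m : ℝ)
    (hout : ∀ p ∈ U, p ∉ K → w p - v p - m ≤ 0) :
    ∫ p, ext0 K (deriv chi) (fun y => w y - v y - m) p * cdet w p ≤
      ∫ p, ext0 K (deriv chi) (fun y => w y - v y - m) p * cdet v p := by
  set h : C2 → ℝ := fun y => w y - v y - m with hh
  have hhs : ∀ p ∈ U, ContDiffAt ℝ ∞ h p := fun p hp =>
    ((hw p hp).sub (hv p hp)).sub contDiffAt_const
  have two_le : (2 : WithTop ℕ∞) ≤ ((⊤ : ℕ∞) : WithTop ℕ∞) := by norm_cast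
  have hF : ContDiff ℝ ∞ (ext0 K chi h) :=
    ext0_contDiff hU hK hKU (fun t ht => Pool.Agent.H314.MA.chi_of_nonpos ht) hout
      Pool.Agent.H314.MA.chi_contDiff hhs
  have hFc : HasCompactSupport (ext0 K chi h) := ext0_hcs hK
  obtain ⟨s, hs, hsK⟩ := Pool.Agent.H314.MA.exists_smooth_ext U K hU hK hKU (fun y => w y + v y)
    (fun p hp => (hw p hp).add (hv p hp))
  have hse : ∀ p ∈ K, s =ᶠ[𝓝 p] fun y => w y + v y := fun p hp =>
    Filter.Eventually.filter_mono (nhds_le_nhdsSet hp) hsK
  have hzero := mixed_zero_integral (ext0 K chi h) s hs hF hFc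
  have hG : Continuous (ext0 K (deriv chi) h) :=
    ext0_cont hU hK hKU (fun t ht => Pool.Agent.H314.MA.deriv_chi_of_nonpos ht) hout
      Pool.Agent.H314.MA.deriv_chi_cont (fun p hp => (hhs p hp).continuousAt)
  have hG0 : ∀ p, p ∉ K → ext0 K (deriv chi) h p = 0 := fun p hp => ext0_of_notMem hp
  -- pointwise inequality
  have key : ∀ p, ext0 K (deriv chi) h p * (2 * (cdet w p - cdet v p)) ≤
      mixed (ext0 K chi h) s p := by
    intro p
    by_cases hp : p ∈ K
    · have hpU := hKU hp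
      have w2 : ContDiffAt ℝ 2 w p := (hw p hpU).of_le two_le
      have v2 : ContDiffAt ℝ 2 v p := (hv p hpU).of_le two_le
      have h2 : ContDiffAt ℝ 2 h p := (hhs p hpU).of_le two_le
      rw [Pool.Agent.H314.MA.mixed_congr (ext0_ev hU
        (fun t ht => Pool.Agent.H314.MA.chi_of_nonpos ht) hout hpU) (hse p hp),
        mixed_comp chi h _ p (Pool.Agent.H314.MA.chi_contDiff.contDiffAt.of_le two_le) h2,
        ext0_of_mem hp]
      have e1 : mixed h (fun y => w y + v y) p = 2 * (cdet w p - cdet v p) := by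
        rw [← mixed_diff w v p w2 v2]
        unfold mixed h11 h22 h12re h12im
        have e : ∀ a b, Pool.Agent.H314.MA.hess h p a b =
            Pool.Agent.H314.MA.hess (fun y => w y - v y) p a b := by
          intro a b
          have h3 := Pool.Agent.H314.MA.hess_sub (fun y => w y - v y) (fun _ => m) p
            (w2.sub v2) contDiffAt_const a b
          have h4 : Pool.Agent.H314.MA.hess (fun _ : C2 => m) p a b = 0 := by
            unfold Pool.Agent.H314.MA.hess
            have h1 : fderiv ℝ (fun _ : C2 => m) = fun _ => 0 := by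
              funext y; exact fderiv_const_apply _
            rw [h1, fderiv_const_apply]
            rfl
          rw [h4, sub_zero] at h3
          exact h3
        simp only [e]
      rw [e1]
      have hq : 0 ≤ qterm h (fun y => w y + v y) p := by
        apply qterm_nonneg _ _ _ (w2.add v2)
        intro ξ
        rw [Pool.Agent.H314.MA.levi_add w v p w2 v2]
        exact add_nonneg (hwl p hpU ξ) (hvl p hpU ξ)
      have hd2 := Pool.Agent.H314.MA.deriv2_chi_nonneg (h p)
      nlinarith [mul_nonneg hd2 hq]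
    · rw [hG0 p hp, zero_mul]
      have hz : ∀ a b, Pool.Agent.H314.MA.hess (ext0 K chi h) p a b = 0 := by
        intro a b
        rw [Pool.Agent.H314.MA.hess_congr (ext0_ev_zero hK hp) a b]
        unfold Pool.Agent.H314.MA.hess
        have h1 : fderiv ℝ (fun _ : C2 => (0 : ℝ)) = fun _ => 0 := by
          funext y; exact fderiv_const_apply _
        rw [h1, fderiv_const_apply]
        rfl
      unfold mixed h11 h22 h12re h12im
      simp only [hz]
      simp
  have cw : ∀ p ∈ K, ContinuousAt (cdet w) p := fun p hp =>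
    cdet_contAt w p ((hw p (hKU hp)).of_le two_le)
  have cv : ∀ p ∈ K, ContinuousAt (cdet v) p := fun p hp =>
    cdet_contAt v p ((hv p (hKU hp)).of_le two_le)
  have i1 : Integrable fun p => ext0 K (deriv chi) h p * cdet w p :=
    (cont_mul_of hK hG hG0 cw).integrable_of_hasCompactSupport (hcs_mul_of hK hG0)
  have i2 : Integrable fun p => ext0 K (deriv chi) h p * cdet v p :=
    (cont_mul_of hK hG hG0 cv).integrable_of_hasCompactSupport (hcs_mul_of hK hG0)
  have i3 : Integrable fun p => ext0 K (deriv chi) h p * (2 * (cdet w p - cdet v p)) := by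
    have := (i1.sub i2).const_mul 2
    refine this.congr (Eventually.of_forall fun p => ?_)
    simp only [Pi.sub_apply]
    ring
  have i4 : Integrable fun p => mixed (ext0 K chi h) s p := by
    apply Continuous.integrable_of_hasCompactSupport
    · rw [continuous_iff_continuousAt]
      intro p
      exact Pool.Agent.H314.MA.continuousAt_mixed _ _ p (hF.contDiffAt.of_le two_le)
        (hs.contDiffAt.of_le two_le)
    · apply HasCompactSupport.of_support_subset_isCompact hFc
      intro p hp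
      by_contra hk
      exact hp (Pool.Agent.H314.MA.mixed_eq_zero_of_notMem s hk)
  have hle := integral_mono i3 i4 key
  rw [hzero] at hle
  have e : ∫ p, ext0 K (deriv chi) h p * (2 * (cdet w p - cdet v p)) =
      2 * ((∫ p, ext0 K (deriv chi) h p * cdet w p) - ∫ p, ext0 K (deriv chi) h p * cdet v p) := by
    rw [← integral_sub i1 i2, ← integral_const_mul]
    congr 1
    funext p
    ring
  rw [e] at hle
  linarith

theorem deriv_chi_mono : Monotone (deriv chi) := by
  apply monotone_of_deriv_nonneg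
  · exact Pool.Agent.H314.MA.deriv_chi_contDiff.differentiable (by simp)
  · intro t
    exact Pool.Agent.H314.MA.deriv2_chi_nonneg t

/-- **Local domination principle.** -/
theorem local_dom {U K : Set C2} (hU : IsOpen U) (hK : IsCompact K) (hKU : K ⊆ U)
    (w u : C2 → ℝ) (hw : ∀ p ∈ U, ContDiffAt ℝ ∞ w p)
    (hwl : ∀ p ∈ U, ∀ ξ, ξ ≠ 0 → 0 < levi w p ξ)
    (v : ℕ → C2 → ℝ) (hv : ∀ k, ContDiffOn ℝ ∞ (v k) U)
    (hvl : ∀ k, ∀ p ∈ U, ∀ ξ, 0 ≤ levi (v k) p ξ)
    (hanti : ∀ p ∈ U, Antitone fun k => v k p)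
    (hlim : ∀ p ∈ U, Tendsto (fun k => v k p) atTop (𝓝 (u p)))
    (hMA : ∀ χ : C2 → ℝ, Continuous χ → HasCompactSupport χ → tsupport χ ⊆ U →
        Tendsto (fun k => ∫ p, χ p * cdet (v k) p) atTop (𝓝 0))
    (m : ℝ) (hout : ∀ p ∈ U, p ∉ K → w p - u p ≤ m) (p0 : C2) (hp0 : p0 ∈ K) :
    w p0 - u p0 ≤ m := by
  by_contra hcon
  push Not at hcon
  have two_le : (2 : WithTop ℕ∞) ≤ ((⊤ : ℕ∞) : WithTop ℕ∞) := by norm_cast
  have hvs : ∀ k, ∀ p ∈ U, ContDiffAt ℝ ∞ (v k) p := fun k p hp =>
    (hv k).contDiffAt (hU.mem_nhds hp)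
  have hge : ∀ k, ∀ p ∈ U, u p ≤ v k p := fun k p hp =>
    (hanti p hp).le_of_tendsto (hlim p hp) k
  have hwl0 : ∀ p ∈ U, ∀ ξ, 0 ≤ levi w p ξ := by
    intro p hp ξ
    by_cases hξ : ξ = 0
    · rw [hξ]
      unfold levi hess
      simp
    · exact (hwl p hp ξ hξ).le
  have hout' : ∀ k, ∀ p ∈ U, p ∉ K → w p - v k p - m ≤ 0 := by
    intro k p hp hk
    have := hout p hp hk
    have := hge k p hp
    linarith
  have hcmp := fun k => comparison_smooth hU hK hKU w (v k) hw (hvs k) hwl0 (hvl k) m (hout' k)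
  -- cutoff
  obtain ⟨χ, hχ, hχc, hχU, hχ01, hχ1⟩ := Pool.Agent.H314.MA.exists_cutoff U K hU hK hKU
  have hχK : ∀ p ∈ K, χ p = 1 := fun p hp => hχ1.self_of_nhdsSet p hp
  have hup : ∀ k, ∫ p, ext0 K (deriv chi) (fun y => w y - v k y - m) p * cdet (v k) p ≤
      ∫ p, χ p * cdet (v k) p := by
    intro k
    have hG : Continuous (ext0 K (deriv chi) (fun y => w y - v k y - m)) :=
      ext0_cont hU hK hKU (fun t ht => Pool.Agent.H314.MA.deriv_chi_of_nonpos ht) (hout' k)
        Pool.Agent.H314.MA.deriv_chi_cont (fun p hp =>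
          (((hw p hp).sub (hvs k p hp)).sub contDiffAt_const).continuousAt)
    have hG0 : ∀ p, p ∉ K → ext0 K (deriv chi) (fun y => w y - v k y - m) p = 0 :=
      fun p hp => ext0_of_notMem hp
    apply integral_mono
    · exact (cont_mul_of hK hG hG0 fun p hp =>
        cdet_contAt _ p ((hvs k p (hKU hp)).of_le two_le)).integrable_of_hasCompactSupport
        (hcs_mul_of hK hG0)
    · refine (cont_mul_of hχc hχ.continuous (fun p hp => image_eq_zero_of_notMem_tsupport hp)
        fun p hp => cdet_contAt _ p ((hvs k p (hχU hp)).of_le two_le)).integrable_of_hasCompactSupport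
        (hcs_mul_of hχc fun p hp => image_eq_zero_of_notMem_tsupport hp)
    · intro p
      by_cases hp : p ∈ K
      · simp only
        rw [ext0_of_mem hp, hχK p hp]
        have h1 := Pool.Agent.H314.MA.deriv_chi_lt_one (w p - v k p - m)
        have h2 := cdet_nonneg (v k) p ((hvs k p (hKU hp)).of_le two_le) (hvl k p (hKU hp))
        exact mul_le_mul_of_nonneg_right h1.le h2
      · simp only
        rw [hG0 p hp, zero_mul]
        by_cases hp2 : p ∈ tsupport χ
        · exact mul_nonneg (hχ01 p).1 (cdet_nonneg (v k) p ((hvs k p (hχU hp2)).of_le two_le)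
            (hvl k p (hχU hp2)))
        · rw [image_eq_zero_of_notMem_tsupport hp2, zero_mul]
  have hMA' := hMA χ hχ.continuous hχc hχU
  -- the lower bound
  obtain ⟨k0, hk0⟩ : ∃ k0, 0 < w p0 - v k0 p0 - m := by
    have h1 := hlim p0 (hKU hp0)
    have h2 : ∀ᶠ k in atTop, v k p0 < w p0 - m := h1.eventually (gt_mem_nhds (by linarith))
    obtain ⟨k, hk⟩ := h2.exists
    exact ⟨k, by linarith⟩
  have hGk : ∀ k, Continuous (ext0 K (deriv chi) (fun y => w y - v k y - m)) := fun k =>
    ext0_cont hU hK hKU (fun t ht => Pool.Agent.H314.MA.deriv_chi_of_nonpos ht) (hout' k)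
        Pool.Agent.H314.MA.deriv_chi_cont (fun p hp =>
          (((hw p hp).sub (hvs k p hp)).sub contDiffAt_const).continuousAt)
  have hGk0 : ∀ k p, p ∉ K → ext0 K (deriv chi) (fun y => w y - v k y - m) p = 0 :=
      fun k p hp => ext0_of_notMem hp
  have hcw : ∀ p ∈ K, ContinuousAt (cdet w) p := fun p hp =>
    cdet_contAt w p ((hw p (hKU hp)).of_le two_le)
  have hcont : ∀ k, Continuous fun p =>
      ext0 K (deriv chi) (fun y => w y - v k y - m) p * cdet w p := fun k =>
    cont_mul_of hK (hGk k) (hGk0 k) hcw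
  have hint : ∀ k, Integrable fun p =>
      ext0 K (deriv chi) (fun y => w y - v k y - m) p * cdet w p := fun k =>
    (hcont k).integrable_of_hasCompactSupport (hcs_mul_of hK (hGk0 k))
  have hnn : ∀ k p, 0 ≤ ext0 K (deriv chi) (fun y => w y - v k y - m) p * cdet w p := by
    intro k p
    by_cases hp : p ∈ K
    · rw [ext0_of_mem hp]
      exact mul_nonneg (Pool.Agent.H314.MA.deriv_chi_nonneg _)
        (cdet_nonneg w p ((hw p (hKU hp)).of_le two_le) (hwl0 p (hKU hp)))
    · rw [hGk0 k p hp, zero_mul]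
  have hpos : 0 < ∫ p, ext0 K (deriv chi) (fun y => w y - v k0 y - m) p * cdet w p := by
    have hH : (volume : Measure C2).IsAddHaarMeasure :=
      inferInstanceAs ((volume : Measure ℂ).prod (volume : Measure ℂ)).IsAddHaarMeasure
    apply Continuous.integral_pos_of_hasCompactSupport_nonneg_nonzero (hcont k0)
      (hcs_mul_of hK (hGk0 k0)) (hnn k0) (x := p0)
    rw [ext0_of_mem hp0]
    apply ne_of_gt
    apply mul_pos
    · rw [Pool.Agent.H314.MA.deriv_chi_pos hk0]
      positivity
    · exact cdet_pos w p0 ((hw p0 (hKU hp0)).of_le two_le) (hwl p0 (hKU hp0))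
  have hmono : ∀ k, k0 ≤ k →
      ∫ p, ext0 K (deriv chi) (fun y => w y - v k0 y - m) p * cdet w p ≤
      ∫ p, ext0 K (deriv chi) (fun y => w y - v k y - m) p * cdet w p := by
    intro k hk
    apply integral_mono (hint k0) (hint k)
    intro p
    by_cases hp : p ∈ K
    · simp only
      rw [ext0_of_mem hp, ext0_of_mem hp]
      apply mul_le_mul_of_nonneg_right
      · apply deriv_chi_mono
        have := hanti p (hKU hp) hk
        simp only at this
        linarith
      · exact cdet_nonneg w p ((hw p (hKU hp)).of_le two_le) (hwl0 p (hKU hp))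
    · simp only
      rw [hGk0 k0 p hp, hGk0 k p hp]
  have hev : ∀ᶠ k in atTop, ∫ p, χ p * cdet (v k) p <
      ∫ p, ext0 K (deriv chi) (fun y => w y - v k0 y - m) p * cdet w p :=
    hMA'.eventually (gt_mem_nhds hpos)
  obtain ⟨k, hk1, hk2⟩ := (hev.and (eventually_ge_atTop k0)).exists
  have := hmono k hk2
  have := hcmp k
  have := hup k
  linarith

end Pool.Agent.TH604.WG
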