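import Pool.Agent.TH604.WG.Quad

set_option autoImplicit false

open Set Filter Topology MeasureTheory
open scoped ContDiff

namespace Pool.Agent.TH604.WG

open Pool.Agent.H314.MA (C2)

theorem isOpen_opn (a b : ℝ) : IsOpen (opn a b) := by
  have h1 : IsOpen {p : C2 | a < ‖p.2‖} := isOpen_lt continuous_const (by fun_prop)
  have h2 : IsOpen {p : C2 | ‖p.2‖ < b} := isOpen_lt (by fun_prop) continuous_const
  exact h1.inter h2

theorem opn_subset_cls (a b : ℝ) : opn a b ⊆ cls a b := fun _ hp => ⟨hp.1.le, hp.2.le⟩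

/-- **Global domination principle** for smooth competitors. -/
theorem global_dom {c a b : ℝ} (hc : 0 < c) {φ₁ φ₂ : ℂ → ℝ} {φ : ℂ × ℂ → ℝ}
    (hφ : IsWeakGeodesic c a b φ₁ φ₂ φ) (W : C2 → ℝ)
    (hWs : ∀ p ∈ opn a b, ContDiffAt ℝ ∞ W p)
    (hWl : ∀ p ∈ opn a b, ∀ ξ, 0 ≤ levi (fun p => c * ‖p.1‖ ^ 2 + W p) p ξ)
    (hWb : ∃ M, ∀ p ∈ opn a b, |W p| ≤ M)
    (hcol : ∀ η : ℝ, 0 < η → ∃ a' b', a < a' ∧ b' < b ∧
      ∀ p ∈ opn a b, (‖p.2‖ < a' ∨ b' < ‖p.2‖) → W p ≤ φ p + η) :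
    ∀ p ∈ opn a b, W p ≤ φ p := by
  by_contra hcon
  push Not at hcon
  obtain ⟨p1, hp1, hlt⟩ := hcon
  obtain ⟨M, hM⟩ := hWb
  obtain ⟨M', hM'⟩ := hφ.bounded
  have hM0 : 0 ≤ M := (abs_nonneg _).trans (hM p1 hp1)
  have two_le : (2 : WithTop ℕ∞) ≤ ((⊤ : ℕ∞) : WithTop ℕ∞) := by norm_cast
  set η : ℝ := (W p1 - φ p1) / 4 with hη
  have hη0 : 0 < η := by rw [hη]; linarith
  obtain ⟨a', b', haa, hbb, hcol'⟩ := hcol η hη0
  obtain ⟨δ, hδ0, hδ1, hδ2⟩ : ∃ δ : ℝ, 0 < δ ∧ δ < 1 ∧ δ * (2 * M + b ^ 2) ≤ η := by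
    have hpos : 0 < 2 * M + b ^ 2 + 1 := by positivity
    refine ⟨min (1 / 2) (η / (2 * M + b ^ 2 + 1)), lt_min (by norm_num) (by positivity),
      lt_of_le_of_lt (min_le_left _ _) (by norm_num), ?_⟩
    calc min (1 / 2) (η / (2 * M + b ^ 2 + 1)) * (2 * M + b ^ 2)
        ≤ (η / (2 * M + b ^ 2 + 1)) * (2 * M + b ^ 2 + 1) := by
          apply mul_le_mul (min_le_right _ _) (by linarith) (by positivity) (by positivity)
      _ = η := by field_simp
  set W' : C2 → ℝ := fun p => (1 - δ) * W p + (δ * (‖p.2‖ ^ 2 - b ^ 2) - δ * M) with hW'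
  have hle : ∀ p ∈ opn a b, W' p ≤ W p := by
    intro p hp
    have h1 := abs_le.1 (hM p hp)
    have h2 : ‖p.2‖ ^ 2 ≤ b ^ 2 := by
      have := hp.2.le
      have := norm_nonneg p.2
      nlinarith
    simp only [hW']
    nlinarith [h1.1]
  have hge1 : W p1 - η ≤ W' p1 := by
    have h1 := abs_le.1 (hM p1 hp1)
    simp only [hW']
    nlinarith [h1.2, sq_nonneg ‖p1.2‖]
  -- the supremum
  set S : ℝ := sSup ((fun p => W' p - φ p) '' opn a b) with hS
  have hbdd : BddAbove ((fun p => W' p - φ p) '' opn a b) := by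
    refine ⟨M + M', ?_⟩
    rintro _ ⟨p, hp, rfl⟩
    have h1 := abs_le.1 (hM p hp)
    have h2 := abs_le.1 (hM' p (opn_subset_cls _ _ hp))
    have h3 := hle p hp
    simp only
    linarith [h1.2, h2.1]
  have hSge : ∀ p ∈ opn a b, W' p - φ p ≤ S := fun p hp => le_csSup hbdd ⟨p, hp, rfl⟩
  have hS3 : 3 * η ≤ S := by
    have := hSge p1 hp1
    rw [hη] at *
    linarith
  -- radius
  obtain ⟨r, hr0, hra, hrb⟩ : ∃ r : ℝ, 0 < r ∧ r < a' - a ∧ r < b - b' := by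
    refine ⟨min (a' - a) (b - b') / 2, ?_, ?_, ?_⟩
    · have := lt_min (sub_pos.2 haa) (sub_pos.2 hbb)
      linarith
    · have h1 := min_le_left (a' - a) (b - b')
      have := lt_min (sub_pos.2 haa) (sub_pos.2 hbb)
      linarith
    · have h1 := min_le_right (a' - a) (b - b')
      have := lt_min (sub_pos.2 haa) (sub_pos.2 hbb)
      linarith
  obtain ⟨γ, hγ0, hγc, hγ1⟩ : ∃ γ : ℝ, 0 < γ ∧ γ < δ * c ∧ γ < δ := by
    have hpos : 0 < min (δ * c) δ := lt_min (by positivity) hδ0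
    refine ⟨min (δ * c) δ / 2, by linarith, ?_, ?_⟩
    · have := min_le_left (δ * c) δ
      linarith
    · have := min_le_right (δ * c) δ
      linarith
  set τ : ℝ := min (γ * (r / 2) ^ 2) η with hτ
  have hτ0 : 0 < τ := lt_min (by positivity) hη0
  obtain ⟨_, ⟨p0, hp0, rfl⟩, hp0S⟩ := exists_lt_of_lt_csSup
    (s := (fun p => W' p - φ p) '' opn a b) ⟨_, ⟨p1, hp1, rfl⟩⟩ (b := S - τ) (by linarith)
  simp only at hp0S
  have hτη : τ ≤ η := min_le_right _ _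
  have hp0a : a' ≤ ‖p0.2‖ := by
    by_contra h
    push Not at h
    have h1 := hcol' p0 hp0 (Or.inl h)
    have h2 := hle p0 hp0
    linarith
  have hp0b : ‖p0.2‖ ≤ b' := by
    by_contra h
    push Not at h
    have h1 := hcol' p0 hp0 (Or.inr h)
    have h2 := hle p0 hp0
    linarith
  have hball : Metric.closedBall p0 r ⊆ opn a b := by
    intro p hp
    rw [Metric.mem_closedBall, Prod.dist_eq] at hp
    have h1 : dist p.2 p0.2 ≤ r := (le_max_right _ _).trans hp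
    rw [dist_eq_norm] at h1
    have h2 := abs_le.1 ((abs_norm_sub_norm_le p.2 p0.2).trans h1)
    exact ⟨by linarith [h2.1], by linarith [h2.2]⟩
  set U : Set C2 := Metric.ball p0 r with hU
  set K : Set C2 := Metric.closedBall p0 (r / 2) with hK
  have hUo : IsOpen U := Metric.isOpen_ball
  have hKc : IsCompact K := isCompact_closedBall _ _
  have hKU : K ⊆ U := Metric.closedBall_subset_ball (by linarith)
  have hclU : closure U ⊆ Metric.closedBall p0 r := Metric.closure_ball_subset_closedBall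
  have hclUc : IsCompact (closure U) :=
    (isCompact_closedBall p0 r).of_isClosed_subset isClosed_closure hclU
  have hUopn : U ⊆ opn a b := (Metric.ball_subset_closedBall).trans hball
  obtain ⟨v, hv, hvl, hanti, hlim, hMA⟩ := hφ.ma U hUo hclUc (hclU.trans hball)
  -- the smooth competitor
  set w : C2 → ℝ := fun p => (1 - δ) * (c * ‖p.1‖ ^ 2 + W p) +
    (quad (δ * c) δ 0 (-(δ * b ^ 2) - δ * M) p + quad (-γ) (-γ) p0 0 p) with hw
  have hweq : ∀ p, w p - (c * ‖p.1‖ ^ 2 + φ p) = W' p - φ p -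
      γ * (‖p.1 - p0.1‖ ^ 2 + ‖p.2 - p0.2‖ ^ 2) := by
    intro p
    simp only [hw, hW', quad, Prod.fst_zero, Prod.snd_zero, sub_zero]
    ring
  have hfs : ∀ p ∈ opn a b, ContDiffAt ℝ ∞ (fun p => c * ‖p.1‖ ^ 2 + W p) p := by
    intro p hp
    have h1 : ContDiff ℝ ∞ (fun p : C2 => ‖p.1‖ ^ 2) := contDiff_fst.norm_sq ℝ
    exact (contDiff_const.mul h1).contDiffAt.add (hWs p hp)
  have hws : ∀ p ∈ opn a b, ContDiffAt ℝ ∞ w p := by
    intro p hp
    exact (contDiffAt_const.mul (hfs p hp)).add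
      ((quad_contDiff _ _ _ _).contDiffAt.add (quad_contDiff _ _ _ _).contDiffAt)
  have hwl : ∀ p ∈ opn a b, ∀ ξ, ξ ≠ 0 → 0 < levi w p ξ := by
    intro p hp ξ hξ
    have f2 := (hfs p hp).of_le two_le
    have q1 : ∀ α β q k, ContDiffAt ℝ 2 (quad α β q k) p := fun α β q k =>
      ((quad_contDiff α β q k).contDiffAt).of_le two_le
    rw [hw, levi_add' _ _ p (contDiffAt_const.mul f2) ((q1 _ _ _ _).add (q1 _ _ _ _)),
      levi_const_mul _ _ p f2, levi_add' _ _ p (q1 _ _ _ _) (q1 _ _ _ _), levi_quad, levi_quad]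
    have h0 := hWl p hp ξ
    have h1 : 0 ≤ (1 - δ) * levi (fun p => c * ‖p.1‖ ^ 2 + W p) p ξ :=
      mul_nonneg (by linarith) h0
    have h2 : 0 < ‖ξ.1‖ ^ 2 + ‖ξ.2‖ ^ 2 := by
      by_contra h
      push Not at h
      have e1 : ‖ξ.1‖ ^ 2 = 0 := by nlinarith [sq_nonneg ‖ξ.1‖, sq_nonneg ‖ξ.2‖]
      have e2 : ‖ξ.2‖ ^ 2 = 0 := by nlinarith [sq_nonneg ‖ξ.1‖, sq_nonneg ‖ξ.2‖]
      apply hξ
      ext1
      · simpa using e1
      · simpa using e2
    have h3 : 0 < (δ * c - γ) * ‖ξ.1‖ ^ 2 + (δ - γ) * ‖ξ.2‖ ^ 2 := by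
      have m0 : 0 < min (δ * c - γ) (δ - γ) := lt_min (by linarith) (by linarith)
      have m1 := min_le_left (δ * c - γ) (δ - γ)
      have m2 := min_le_right (δ * c - γ) (δ - γ)
      calc 0 < min (δ * c - γ) (δ - γ) * (‖ξ.1‖ ^ 2 + ‖ξ.2‖ ^ 2) := by positivity
        _ ≤ _ := by nlinarith [sq_nonneg ‖ξ.1‖, sq_nonneg ‖ξ.2‖]
    nlinarith
  have hfin := local_dom hUo hKc hKU w (fun p => c * ‖p.1‖ ^ 2 + φ p)
    (fun p hp => hws p (hUopn hp)) (fun p hp => hwl p (hUopn hp)) v hv hvl hanti hlim hMA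
    (S - γ * (r / 2) ^ 2) (by
      intro p hp hpK
      rw [hweq]
      have h1 := hSge p (hUopn hp)
      have h2 : r / 2 < dist p p0 := by
        by_contra h
        push Not at h
        exact hpK h
      rw [Prod.dist_eq, lt_max_iff, dist_eq_norm, dist_eq_norm] at h2
      have h3 : (r / 2) ^ 2 ≤ ‖p.1 - p0.1‖ ^ 2 + ‖p.2 - p0.2‖ ^ 2 := by
        rcases h2 with h2 | h2
        · nlinarith [sq_nonneg ‖p.2 - p0.2‖]
        · nlinarith [sq_nonneg ‖p.1 - p0.1‖]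
      have h4 := mul_le_mul_of_nonneg_left h3 hγ0.le
      linarith) p0 (Metric.mem_closedBall_self (by linarith))
  rw [hweq] at hfin
  simp only [sub_self, norm_zero] at hfin
  have hτ1 : τ ≤ γ * (r / 2) ^ 2 := min_le_left _ _
  nlinarith

end Pool.Agent.TH604.WG
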