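import Pool.Agent.TH604.WG.Collar

set_option autoImplicit false

open Set Filter Topology MeasureTheory
open scoped ContDiff

namespace Pool.Agent.TH604.WG

theorem hess_dir {f : ℂ → ℝ} (hf : ContDiff ℝ ∞ f) (x v w : ℂ) :
    hess f x v w = fderiv ℝ (fun y => fderiv ℝ f y w) x v := by
  have h1 : DifferentiableAt ℝ (fderiv ℝ f) x :=
    ((hf.fderiv_right (m := ∞) (by simp)).differentiable (by simp)) x
  have h2 : HasFDerivAt (fun y => fderiv ℝ f y w) ((fderiv ℝ (fderiv ℝ f) x).flip w) x := by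
    have h3 := h1.hasFDerivAt.clm_apply (hasFDerivAt_const w x)
    simpa using h3
  unfold hess
  rw [h2.fderiv]
  rfl

theorem green_dir {g χ : ℂ → ℝ} (hg : ContDiff ℝ ∞ g) (hχ : ContDiff ℝ ∞ χ)
    (hc : HasCompactSupport χ) (v : ℂ) :
    ∫ x, g x * hess χ x v v = ∫ x, hess g x v v * χ x := by
  have sD : ∀ {f : ℂ → ℝ}, ContDiff ℝ ∞ f → ContDiff ℝ ∞ (fun y => fderiv ℝ f y v) :=
    fun hf => (hf.fderiv_right (m := ∞) (by simp)).clm_apply contDiff_const
  have cD : HasCompactSupport (fun y => fderiv ℝ χ y v) := hc.fderiv_apply ℝ v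
  have cDD : HasCompactSupport (fun y => fderiv ℝ (fun y => fderiv ℝ χ y v) y v) :=
    cD.fderiv_apply ℝ v
  have h1 := integral_mul_fderiv_eq_neg_fderiv_mul_of_integrable (μ := (volume : Measure ℂ))
    (f := g) (g := fun y => fderiv ℝ χ y v) (v := v)
    (((sD hg).continuous.mul (sD hχ).continuous).integrable_of_hasCompactSupport cD.mul_left)
    ((hg.continuous.mul (sD (sD hχ)).continuous).integrable_of_hasCompactSupport cDD.mul_left)
    ((hg.continuous.mul (sD hχ).continuous).integrable_of_hasCompactSupport cD.mul_left)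
    (fun x _ => hg.differentiable (by simp) x) (fun x _ => (sD hχ).differentiable (by simp) x)
  have h2 := integral_mul_fderiv_eq_neg_fderiv_mul_of_integrable (μ := (volume : Measure ℂ))
    (f := fun y => fderiv ℝ g y v) (g := χ) (v := v)
    (((sD (sD hg)).continuous.mul hχ.continuous).integrable_of_hasCompactSupport hc.mul_left)
    (((sD hg).continuous.mul (sD hχ).continuous).integrable_of_hasCompactSupport cD.mul_left)
    (((sD hg).continuous.mul hχ.continuous).integrable_of_hasCompactSupport hc.mul_left)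
    (fun x _ => (sD hg).differentiable (by simp) x) (fun x _ => hχ.differentiable (by simp) x)
  simp only [hess_dir hχ, hess_dir hg]
  rw [h1, h2, neg_neg]

theorem hess_continuous {F : ℂ → ℝ} (hF : ContDiff ℝ ∞ F) (v w : ℂ) :
    Continuous fun x => hess F x v w := by
  simp only [hess_dir hF]
  have sD : ∀ {f : ℂ → ℝ}, ContDiff ℝ ∞ f → ∀ v, ContDiff ℝ ∞ (fun y => fderiv ℝ f y v) :=
    fun hf v => (hf.fderiv_right (m := ∞) (by simp)).clm_apply contDiff_const
  exact (sD (sD hF w) v).continuous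

theorem hess_cs {χ : ℂ → ℝ} (hχ : ContDiff ℝ ∞ χ) (hc : HasCompactSupport χ) (v w : ℂ) :
    HasCompactSupport fun x => hess χ x v w := by
  simp only [hess_dir hχ]
  have h1 : HasCompactSupport (fun y => fderiv ℝ χ y w) := hc.fderiv_apply ℝ w
  exact h1.fderiv_apply ℝ v

theorem green {g χ : ℂ → ℝ} (hg : ContDiff ℝ ∞ g) (hχ : ContDiff ℝ ∞ χ)
    (hc : HasCompactSupport χ) : ∫ x, g x * lap χ x = ∫ x, lap g x * χ x := by
  unfold lap
  simp only [mul_add, add_mul]
  have i1 : ∀ v, Integrable (fun x => g x * hess χ x v v) := fun v =>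
    (hg.continuous.mul (hess_continuous hχ v v)).integrable_of_hasCompactSupport
      (hess_cs hχ hc v v).mul_left
  have i2 : ∀ v, Integrable (fun x => hess g x v v * χ x) := fun v =>
    ((hess_continuous hg v v).mul hχ.continuous).integrable_of_hasCompactSupport hc.mul_left
  rw [integral_add (i1 _) (i1 _), integral_add (i2 _) (i2 _), green_dir hg hχ hc,
    green_dir hg hχ hc]

theorem not_strictly {c : ℝ} (hc : 0 < c) {ψ : ℂ → ℝ} {z : ℂ} {K C : ℝ}
    (h : ∀ᶠ x in 𝓝 (0 : ℂ), ψ x = ‖z * ff K x‖ ^ 2 - c * ‖x‖ ^ 2 + C) :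
    ¬ StrictlyPositive c ψ := by
  rintro ⟨ε, hε, hpos⟩
  have two_le : (2 : WithTop ℕ∞) ≤ ((⊤ : ℕ∞) : WithTop ℕ∞) := by norm_cast
  obtain ⟨ρ0, hρ0, hball⟩ := Metric.eventually_nhds_iff_ball.1 h
  obtain ⟨ρ, hρ, hρρ, hρs⟩ : ∃ ρ : ℝ, 0 < ρ ∧ ρ < ρ0 ∧ 16 * ‖z‖ ^ 2 * K ^ 2 * ρ ^ 2 < 4 * ε * c := by
    have h1 : ∀ᶠ ρ : ℝ in 𝓝 (0 : ℝ), ρ < ρ0 ∧ 16 * ‖z‖ ^ 2 * K ^ 2 * ρ ^ 2 < 4 * ε * c := by
      have c1 : Continuous fun ρ : ℝ => 16 * ‖z‖ ^ 2 * K ^ 2 * ρ ^ 2 := by fun_prop
      refine (gt_mem_nhds hρ0).and (c1.continuousAt.eventually (gt_mem_nhds ?_))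
      simp only [ne_eq, OfNat.ofNat_ne_zero, not_false_eq_true, zero_pow, mul_zero]
      positivity
    have h2 : ∀ᶠ ρ : ℝ in 𝓝[>] (0 : ℝ), 0 < ρ := by
      filter_upwards [self_mem_nhdsWithin] with ρ hρ
      exact hρ
    obtain ⟨ρ, h3, h4⟩ := (h2.and (nhdsWithin_le_nhds h1)).exists
    exact ⟨ρ, h3, h4.1, h4.2⟩
  let χ : ContDiffBump (0 : ℂ) := ⟨ρ / 2, ρ, by linarith, by linarith⟩
  have hχ := hpos χ χ.contDiff χ.hasCompactSupport (fun x => χ.nonneg)
  set g : ℂ → ℝ := fun x => ‖z * ff K x‖ ^ 2 + ((-(ε * c)) * ‖x - 0‖ ^ 2 + C) with hg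
  have h0 : ContDiff ℂ ∞ (fun y : ℂ => z * ff K y) := by unfold ff; fun_prop
  have h0' : ContDiff ℂ 2 (fun y : ℂ => z * ff K y) := by unfold ff; fun_prop
  have h1 : ContDiff ℝ ∞ (fun y : ℂ => ‖z * ff K y‖ ^ 2) := (h0.restrict_scalars ℝ).norm_sq ℝ
  have h2 : ContDiff ℝ ∞ (fun y : ℂ => ‖y - 0‖ ^ 2) :=
    nsq_contDiff (ContinuousLinearMap.id ℝ ℂ) 0
  have hgs : ContDiff ℝ ∞ g := h1.add ((contDiff_const.mul h2).add contDiff_const)
  have hlg : ∀ x, lap g x = 16 * ‖z‖ ^ 2 * K ^ 2 * ‖x‖ ^ 2 - 4 * ε * c := by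
    intro x
    rw [hg, lap_add (h1.contDiffAt.of_le two_le)
      (((contDiff_const.mul h2).add contDiff_const).contDiffAt.of_le two_le),
      lap_add ((contDiff_const.mul h2).contDiffAt.of_le two_le) contDiffAt_const, lap_const,
      lap_const_mul _ (h2.contDiffAt.of_le two_le), lap_nsq_sub, lap_holo h0']
    have h3 : deriv (fun y : ℂ => z * ff K y) x = z * deriv (ff K) x :=
      deriv_const_mul _ (ff_differentiable K x)
    rw [h3, deriv_ff, norm_mul, norm_neg, norm_mul, norm_mul, Complex.norm_real,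
      Complex.norm_ofNat, mul_pow, mul_pow, mul_pow, Real.norm_eq_abs, sq_abs]
    ring
  have hχ0 : ∀ x : ℂ, ρ ≤ ‖x‖ → χ x = 0 := fun x hx => χ.zero_of_le_dist (by simpa using hx)
  have heq : ∀ x, ((1 - ε) * (c * ‖x‖ ^ 2) + ψ x) * lap χ x = g x * lap χ x := by
    intro x
    rcases lt_or_ge ‖x‖ ρ0 with hx | hx
    · rw [hball x (by simpa using hx)]
      simp only [hg, sub_zero]
      ring
    · have h3 : (χ : ℂ → ℝ) =ᶠ[𝓝 x] fun _ => 0 := by
        have h4 : ∀ᶠ y in 𝓝 x, ρ < ‖y‖ :=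
          (continuous_norm.continuousAt (x := x)).eventually (lt_mem_nhds (by linarith))
        filter_upwards [h4] with y hy
        exact hχ0 y hy.le
      rw [lap_congr h3, lap_const]
      ring
  simp only [heq] at hχ
  rw [green hgs χ.contDiff χ.hasCompactSupport] at hχ
  have hneg : 0 < ∫ x, -(lap g x * χ x) := by
    have hcont : Continuous fun x => -(lap g x * χ x) :=
      ((lap_continuous hgs).mul χ.continuous).neg
    have hcs : HasCompactSupport fun x => -(lap g x * χ x) := by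
      have h5 : HasCompactSupport fun x => lap g x * χ x := χ.hasCompactSupport.mul_left
      exact h5.neg
    refine hcont.integral_pos_of_hasCompactSupport_nonneg_nonzero hcs ?_ (x := 0) ?_
    · intro x
      show 0 ≤ -(lap g x * χ x)
      rcases lt_or_ge ‖x‖ ρ with hx | hx
      · have h6 : lap g x ≤ 0 := by
          rw [hlg]
          have : ‖x‖ ^ 2 ≤ ρ ^ 2 := pow_le_pow_left₀ (norm_nonneg _) hx.le 2
          have h7 : 0 ≤ 16 * ‖z‖ ^ 2 * K ^ 2 := by positivity
          nlinarith [mul_le_mul_of_nonneg_left this h7]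
        have h7 := χ.nonneg (x := x)
        nlinarith
      · rw [hχ0 x hx]; simp
    · have h6 : χ (0 : ℂ) = 1 := χ.one_of_mem_closedBall (by
        rw [Metric.mem_closedBall, dist_self]
        have : (0 : ℝ) < ρ / 2 := by linarith
        exact this.le)
      rw [h6, hlg]
      simp only [norm_zero, ne_eq, OfNat.ofNat_ne_zero, not_false_eq_true, zero_pow, mul_zero,
        zero_sub, mul_one, neg_neg]
      positivity
  rw [integral_neg] at hneg
  linarith

end Pool.Agent.TH604.WG
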