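import Pool.Agent.TH604.WG.Per

set_option autoImplicit false

open Set Filter Topology MeasureTheory
open scoped ContDiff

namespace Pool.Agent.TH604.WG

open Pool.Agent.H314.MA (C2)

section gen

variable {E : Type*} [NormedAddCommGroup E] [NormedSpace ℂ E] [NormedSpace ℝ E]
  [IsScalarTower ℝ ℂ E]

theorem fderiv_restr {G : E → ℂ} (hG : ContDiff ℂ 2 G) (y : E) :
    fderiv ℝ G y = (fderiv ℂ G y).restrictScalars ℝ :=
  ((hG.differentiable (by norm_num) y).fderiv_restrictScalars ℝ)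

theorem fderiv2_restr {G : E → ℂ} (hG : ContDiff ℂ 2 G) (p v w : E) :
    fderiv ℝ (fderiv ℝ G) p v w = fderiv ℂ (fderiv ℂ G) p v w := by
  have h1 : fderiv ℝ G = fun y => ContinuousLinearMap.restrictScalarsL ℂ E ℂ ℝ ℝ
      (fderiv ℂ G y) := by
    funext y
    exact fderiv_restr hG y
  have h2 : DifferentiableAt ℂ (fderiv ℂ G) p :=
    (hG.fderiv_right (m := 1) (by norm_num)).differentiable (by norm_num) p
  have h3 : HasFDerivAt (fderiv ℂ G) ((fderiv ℂ (fderiv ℂ G) p).restrictScalars ℝ) p :=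
    h2.hasFDerivAt.restrictScalars ℝ
  have h4 := (ContinuousLinearMap.restrictScalarsL ℂ E ℂ ℝ ℝ).hasFDerivAt.comp p h3
  rw [h1]
  have h5 : fderiv ℝ (fun y => ContinuousLinearMap.restrictScalarsL ℂ E ℂ ℝ ℝ
      (fderiv ℂ G y)) p = _ := h4.fderiv
  rw [h5]
  rfl

theorem hess_normsq (p v w : ℂ) : hess (fun z : ℂ => ‖z‖ ^ 2) p v w = 2 * (inner ℝ v w : ℝ) := by
  have h := hess_nsq (ContinuousLinearMap.id ℝ ℂ) 0 p v w
  simpa using h

theorem levi_gen {G : E → ℂ} (hG : ContDiff ℂ 2 G) (p w : E) :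
    hess (fun y => ‖G y‖ ^ 2) p w w + hess (fun y => ‖G y‖ ^ 2) p (Complex.I • w)
      (Complex.I • w) = 4 * ‖fderiv ℂ G p w‖ ^ 2 := by
  have hGr : ContDiff ℝ 2 G := hG.restrict_scalars ℝ
  have hn : ContDiff ℝ 2 (fun z : ℂ => ‖z‖ ^ 2) := contDiff_id.norm_sq ℝ
  have h := fun a b => Pool.Agent.H314.MA.snd_comp_gen (f := G) (g := fun z : ℂ => ‖z‖ ^ 2)
    (z := p) hn.contDiffAt hGr.contDiffAt a b
  have hq := fun a b => hess_normsq (G p) a b
  unfold hess at hq ⊢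
  rw [h, h, hq, hq, fderiv2_restr hG, fderiv2_restr hG, fderiv_restr hG]
  have e1 : ((fderiv ℂ G p).restrictScalars ℝ) (Complex.I • w) = Complex.I * fderiv ℂ G p w := by
    show (fderiv ℂ G p) (Complex.I • w) = _
    rw [map_smul, smul_eq_mul]
  have e2 : (fderiv ℂ (fderiv ℂ G) p) (Complex.I • w) (Complex.I • w) =
      -(fderiv ℂ (fderiv ℂ G) p w w) := by
    rw [map_smul, map_smul, ContinuousLinearMap.smul_apply, smul_smul, Complex.I_mul_I,
      neg_one_smul]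
  have e3 : ((fderiv ℂ G p).restrictScalars ℝ) w = fderiv ℂ G p w := rfl
  rw [e1, e2, map_neg, e3, real_inner_self_eq_norm_sq, real_inner_self_eq_norm_sq, norm_mul,
    Complex.norm_I, one_mul]
  ring

end gen

theorem levi_holo {G : C2 → ℂ} (hG : ContDiff ℂ 2 G) (p w : C2) :
    levi (fun y => ‖G y‖ ^ 2) p w = ‖fderiv ℂ G p w‖ ^ 2 := by
  unfold levi
  rw [levi_gen hG]
  ring

theorem lap_holo {g : ℂ → ℂ} (hg : ContDiff ℂ 2 g) (x : ℂ) :
    lap (fun y => ‖g y‖ ^ 2) x = 4 * ‖deriv g x‖ ^ 2 := by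
  have h := levi_gen hg x (1 : ℂ)
  unfold lap
  rw [smul_eq_mul, mul_one] at h
  rw [h, fderiv_apply_one_eq_deriv]

/-- second derivatives of a composition with a function of one variable -/
theorem levi_comp {g : ℝ → ℝ} {F : C2 → ℝ} {p : C2} (hg : ContDiffAt ℝ 2 g (F p))
    (hF : ContDiffAt ℝ 2 F p) (w : C2) :
    levi (fun y => g (F y)) p w = deriv g (F p) * levi F p w + deriv (deriv g) (F p) *
      ((fderiv ℝ F p w) ^ 2 + (fderiv ℝ F p (Complex.I • w)) ^ 2) / 4 := by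
  have h := fun a b => Pool.Agent.H314.MA.comp1_gen g F p hg hF a b
  unfold levi hess
  rw [h, h]
  ring

theorem lap_comp1 {g : ℝ → ℝ} {F : ℂ → ℝ} {x : ℂ} (hg : ContDiffAt ℝ 2 g (F x))
    (hF : ContDiffAt ℝ 2 F x) :
    lap (fun y => g (F y)) x = deriv g (F x) * lap F x + deriv (deriv g) (F x) *
      ((fderiv ℝ F x 1) ^ 2 + (fderiv ℝ F x Complex.I) ^ 2) := by
  have h := fun a b => Pool.Agent.H314.MA.comp1_gen g F x hg hF a b
  unfold lap hess
  rw [h, h]
  ring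

section laps

theorem ev_diff {E : Type*} [NormedAddCommGroup E] [NormedSpace ℝ E] {f : E → ℝ} {x : E}
    (hf : ContDiffAt ℝ 2 f x) : ∀ᶠ y in 𝓝 x, DifferentiableAt ℝ f y := by
  filter_upwards [hf.eventually (by simp)] with y hy
  exact hy.differentiableAt (by norm_num)

theorem diff_fderiv {E : Type*} [NormedAddCommGroup E] [NormedSpace ℝ E] {f : E → ℝ} {x : E}
    (hf : ContDiffAt ℝ 2 f x) : DifferentiableAt ℝ (fderiv ℝ f) x :=
  (hf.fderiv_right (m := 1) (by norm_num)).differentiableAt (by norm_num)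

theorem hess_add {E : Type*} [NormedAddCommGroup E] [NormedSpace ℝ E] {f g : E → ℝ} {x : E}
    (hf : ContDiffAt ℝ 2 f x) (hg : ContDiffAt ℝ 2 g x) (v w : E) :
    hess (fun y => f y + g y) x v w = hess f x v w + hess g x v w := by
  have h1 : fderiv ℝ (fun y => f y + g y) =ᶠ[𝓝 x] fun y => fderiv ℝ f y + fderiv ℝ g y := by
    filter_upwards [ev_diff hf, ev_diff hg] with y h1 h2
    exact fderiv_fun_add h1 h2
  unfold hess
  rw [h1.fderiv_eq]
  have h2 : HasFDerivAt (fun y => fderiv ℝ f y + fderiv ℝ g y)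
      (fderiv ℝ (fderiv ℝ f) x + fderiv ℝ (fderiv ℝ g) x) x :=
    (diff_fderiv hf).hasFDerivAt.add (diff_fderiv hg).hasFDerivAt
  rw [h2.fderiv]
  rfl

theorem hess_const_mul {E : Type*} [NormedAddCommGroup E] [NormedSpace ℝ E] {f : E → ℝ} {x : E}
    (c : ℝ) (hf : ContDiffAt ℝ 2 f x) (v w : E) :
    hess (fun y => c * f y) x v w = c * hess f x v w := by
  have h1 : fderiv ℝ (fun y => c * f y) =ᶠ[𝓝 x] fun y => c • fderiv ℝ f y := by
    filter_upwards [ev_diff hf] with y h1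
    exact fderiv_const_mul h1 c
  unfold hess
  rw [h1.fderiv_eq]
  have h2 : HasFDerivAt (fun y => c • fderiv ℝ f y) (c • fderiv ℝ (fderiv ℝ f) x) x :=
    (diff_fderiv hf).hasFDerivAt.const_smul c
  rw [h2.fderiv]
  rfl

theorem hess_const {E : Type*} [NormedAddCommGroup E] [NormedSpace ℝ E] (c : ℝ) (x v w : E) :
    hess (fun _ => c) x v w = 0 := by
  unfold hess
  have h1 : fderiv ℝ (fun _ : E => c) = fun _ => 0 := by
    funext y; exact fderiv_const_apply _
  rw [h1, fderiv_const_apply]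
  rfl

theorem lap_add {f g : ℂ → ℝ} {x : ℂ} (hf : ContDiffAt ℝ 2 f x) (hg : ContDiffAt ℝ 2 g x) :
    lap (fun y => f y + g y) x = lap f x + lap g x := by
  unfold lap
  rw [hess_add hf hg, hess_add hf hg]; ring

theorem lap_const_mul {f : ℂ → ℝ} {x : ℂ} (c : ℝ) (hf : ContDiffAt ℝ 2 f x) :
    lap (fun y => c * f y) x = c * lap f x := by
  unfold lap
  rw [hess_const_mul c hf, hess_const_mul c hf]; ring

theorem lap_const (c : ℝ) (x : ℂ) : lap (fun _ => c) x = 0 := by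
  unfold lap
  rw [hess_const, hess_const]; ring

theorem lap_congr {f g : ℂ → ℝ} {x : ℂ} (h : f =ᶠ[𝓝 x] g) : lap f x = lap g x := by
  unfold lap hess
  rw [(h.fderiv (𝕜 := ℝ)).fderiv_eq]

theorem lap_nsq_sub (x0 x : ℂ) : lap (fun y => ‖y - x0‖ ^ 2) x = 4 := by
  have h := fun v w => hess_nsq (ContinuousLinearMap.id ℝ ℂ) x0 x v w
  have e : (fun p : ℂ => ‖(ContinuousLinearMap.id ℝ ℂ) p - x0‖ ^ 2) = fun y => ‖y - x0‖ ^ 2 := rfl
  rw [e] at h
  unfold lap
  rw [h, h]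
  simp only [ContinuousLinearMap.id_apply]
  rw [real_inner_self_eq_norm_sq, real_inner_self_eq_norm_sq, Complex.norm_I, norm_one]
  norm_num

theorem lap_translate (f : ℂ → ℝ) (x0 x : ℂ) : lap (fun y => f (y - x0)) x = lap f (x - x0) := by
  unfold lap hess
  have h1 : fderiv ℝ (fun y => f (y - x0)) = fun y => fderiv ℝ f (y - x0) := by
    funext y
    exact fderiv_comp_sub x0
  rw [h1, fderiv_comp_sub (f := fderiv ℝ f) x0]

end laps

end Pool.Agent.TH604.WG
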