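import Pool.Agent.TH604.WG.Green

set_option autoImplicit false

open Set Filter Topology MeasureTheory
open scoped ContDiff

namespace Pool.Agent.TH604.WG

open Pool.Agent.H314.MA (C2)

theorem rd_zero : rd 0 = 0 := by
  unfold rd
  apply Complex.ext <;> simp

theorem rd_small {x : ℂ} (h : ‖x‖ ≤ 1 / 8) : rd x = 0 := by
  have h1 := rd_eq_of (x := x) (x0 := 0) (by rw [rd_zero, sub_zero]; linarith)
  rw [h1, rd_zero]

variable {a b K c C0 : ℝ}

theorem exists_par (ha : 0 < a) (hab : a < b) : ∃ c C0, Par b (64 * (1 + b / a)) c C0 := by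
  have hb : 0 < b := ha.trans hab
  set K : ℝ := 64 * (1 + b / a) with hK
  set c : ℝ := 64 * ((2 * b) ^ 2 * (K / 2 + 1) ^ 2 + 1) with hc
  have hc0 : 0 < c := by rw [hc]; positivity
  refine ⟨c, 1 + c / 64, ⟨hb, ?_, hc0, rfl, ?_⟩⟩
  · have : 0 < b / a := by positivity
    rw [hK]; linarith
  · have h1 : (2 * b) ^ 2 * (K / 2 + 1) ^ 2 + 1 = c / 64 := by rw [hc]; ring
    linarith

theorem WW_near {x z : ℂ} (P : Par b K c C0) (hx : ‖x‖ ≤ 1 / 8) :
    WW K c C0 (x, z) = ‖z * ff K x‖ ^ 2 - c * ‖x‖ ^ 2 + (C0 - k0) := by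
  unfold WW
  simp only [rd_small hx, sub_zero]
  rw [hh_of_one_le (GG_one_le P hx)]
  unfold GG
  ring

/-- the weak geodesic is explicit near `x = 0` and over a compact sub-annulus -/
theorem pin {s r0 : ℝ} {B : ℂ → ℝ} {φ : ℂ × ℂ → ℝ} (ha : 0 < a) (hab : a < b)
    (hKe : K = 64 * (1 + b / a)) (P : Par b K c C0) (hB : Bump a K r0 B) (hs0 : 0 < s)
    (hr0 : 0 < r0) (hrs : K * r0 ^ 2 = s) (hs1 : s < 1)
    (hφ : IsWeakGeodesic c a b (PP K c C0 B a) (PP K c C0 B b) φ) (z : ℂ)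
    (hza : a * (1 + s) < ‖z‖) (hzb : ‖z‖ < b * (1 - s)) :
    ∀ᶠ x in 𝓝 (0 : ℂ), φ (x, z) = ‖z * ff K x‖ ^ 2 - c * ‖x‖ ^ 2 + (C0 - k0) := by
  have hb : 0 < b := ha.trans hab
  have hK := P.hK
  have hK0 : 0 < K := by linarith
  have hc := P.hc
  have hr8 : r0 ≤ 1 / 8 := by nlinarith
  have hzab : ((0 : ℂ), z) ∈ opn a b := by
    constructor
    · show a < ‖z‖
      nlinarith
    · show ‖z‖ < b
      nlinarith
  have hz0 : 0 < ‖z‖ := ha.trans hzab.1
  -- lower bound
  have hlow := global_dom hc hφ (WW K c C0)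
    (fun p hp => WW_smooth P p (by have := hp.2; linarith))
    (fun p hp ξ => WW_levi P p (by have := hp.2; linarith) ξ)
    ⟨_, fun p hp => WW_bounded P (by have := hp.2; linarith)⟩
    (fun η hη => collar hab hφ (WW K c C0)
      (fun p hp => (WW_smooth P p (by have := hp.2; linarith)).continuousAt)
      (fun x z => WW_add_one (x, z)) (fun x z => WW_add_I (x, z))
      (by
        intro x z hz
        unfold WW PP
        apply hh_mono
        have h1 : GG K c C0 (x - rd x) z = GG K c C0 (x - rd x) (a : ℂ) := by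
          unfold GG
          rw [norm_mul, norm_mul, hz, Complex.norm_real, Real.norm_eq_abs, abs_of_pos ha]
        have h2 := hB.nonneg (x - rd x)
        simp only
        rw [h1]
        linarith)
      (by
        intro x z hz
        unfold WW PP
        apply hh_mono
        have h1 : GG K c C0 (x - rd x) z = GG K c C0 (x - rd x) (b : ℂ) := by
          unfold GG
          rw [norm_mul, norm_mul, hz, Complex.norm_real, Real.norm_eq_abs, abs_of_pos hb]
        have h2 := hB.nonneg (x - rd x)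
        simp only
        rw [h1]
        linarith) η hη)
  -- the neighbourhood
  have hcont : Continuous fun x : ℂ => ‖z * ff K x‖ := by unfold ff; fun_prop
  have hval : ‖z * ff K 0‖ = ‖z‖ := by rw [ff_zero, mul_one]
  have hff : Continuous fun x : ℂ => ‖ff K x‖ := by unfold ff; fun_prop
  have e1 : ∀ᶠ x in 𝓝 (0 : ℂ), a * (1 + s) < ‖z * ff K x‖ :=
    hcont.continuousAt.eventually (lt_mem_nhds (by simp only [hval]; exact hza))
  have e2 : ∀ᶠ x in 𝓝 (0 : ℂ), ‖z * ff K x‖ < b * (1 - s) :=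
    hcont.continuousAt.eventually (gt_mem_nhds (by simp only [hval]; exact hzb))
  have e3 : ∀ᶠ x in 𝓝 (0 : ℂ), 0 < ‖ff K x‖ :=
    hff.continuousAt.eventually (lt_mem_nhds (by simp [ff_zero]))
  have e4 : ∀ᶠ x in 𝓝 (0 : ℂ), ‖x‖ < 1 / 8 :=
    (continuous_norm.continuousAt (x := (0 : ℂ))).eventually (gt_mem_nhds (by simp))
  filter_upwards [e1, e2, e3, e4] with x h1 h2 h3 h4
  apply le_antisymm
  · -- upper bound
    set κ : ℂ := z * ff K x with hκ
    have hκ0 : κ ≠ 0 := by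
      rw [← norm_pos_iff]
      have : 0 < a * (1 + s) := by positivity
      linarith
    have hκp : 0 < ‖κ‖ := norm_pos_iff.2 hκ0
    have hκb : ‖κ‖ ≤ b := by nlinarith
    -- the curve stays close to the origin
    have hC8 : ∀ x', ‖ff K x'‖ ≤ ‖κ‖ / a → ‖x'‖ ≤ 1 / 8 := by
      intro x' hx'
      have h5 := le_norm_ff hK0.le x'
      have h6 : ‖κ‖ / a ≤ b / a := div_le_div_of_nonneg_right hκb ha.le
      have h7 : K * ‖x'‖ ^ 2 ≤ 1 + b / a := by linarith
      have h8 : 0 < 1 + b / a := by positivity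
      rw [hKe] at h7
      have h9 : 64 * ‖x'‖ ^ 2 ≤ 1 := by
        by_contra hcon
        push Not at hcon
        nlinarith
      nlinarith [norm_nonneg x']
    have hfar : ∀ x', ‖x'‖ ≤ 1 / 8 → (1 + s ≤ ‖ff K x'‖ ∨ ‖ff K x'‖ ≤ 1 - s) → r0 ≤ ‖x'‖ := by
      intro x' _ hor
      by_contra hcon
      push Not at hcon
      have h5 : K * ‖x'‖ ^ 2 < s := by
        rw [← hrs]
        have : ‖x'‖ ^ 2 < r0 ^ 2 := pow_lt_pow_left₀ hcon (norm_nonneg _) (by norm_num)
        nlinarith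
      have h6 := norm_ff_le hK0.le x'
      have h7 := one_sub_le_norm_ff hK0.le x'
      rcases hor with h | h <;> linarith
    have hbd : ∀ (r : ℝ) (x' : ℂ), 0 < r → ‖x'‖ ≤ 1 / 8 →
        (1 + s ≤ ‖ff K x'‖ ∨ ‖ff K x'‖ ≤ 1 - s) → ‖ff K x'‖ = ‖κ‖ / r →
        c * ‖x'‖ ^ 2 + PP K c C0 B r x' ≤ ‖κ‖ ^ 2 + (C0 - k0) := by
      intro r x' hr hx8 hor hfx
      have h5 := hB.supp x' (hfar x' hx8 hor)
      unfold PP
      rw [rd_small hx8, sub_zero, h5, add_zero, hh_of_one_le (GG_one_le P hx8)]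
      unfold GG
      rw [norm_mul, hfx, Complex.norm_real, Real.norm_eq_abs, abs_of_pos hr]
      have h6 : r * (‖κ‖ / r) = ‖κ‖ := by field_simp
      rw [h6]
      linarith
    have hCc : IsCompact {x' | ‖κ‖ / b ≤ ‖ff K x'‖ ∧ ‖ff K x'‖ ≤ ‖κ‖ / a} := by
      have hcl : IsClosed {x' | ‖κ‖ / b ≤ ‖ff K x'‖ ∧ ‖ff K x'‖ ≤ ‖κ‖ / a} := by
        have e : {x' | ‖κ‖ / b ≤ ‖ff K x'‖ ∧ ‖ff K x'‖ ≤ ‖κ‖ / a} =
            {x' | ‖κ‖ / b ≤ ‖ff K x'‖} ∩ {x' | ‖ff K x'‖ ≤ ‖κ‖ / a} := rfl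
        rw [e]
        exact (isClosed_le continuous_const hff).inter (isClosed_le hff continuous_const)
      refine (isCompact_closedBall (0 : ℂ) (1 / 8)).of_isClosed_subset hcl ?_
      intro x' hx'
      simpa using hC8 x' hx'.2
    have hua : 1 + s ≤ ‖κ‖ / a := by
      rw [le_div_iff₀ ha]
      linarith
    have hub : ‖κ‖ / b ≤ 1 - s := by
      rw [div_le_iff₀ hb]
      linarith
    have hupp := upper_bound ha hab hφ (ff K) (ff_differentiable K) κ hκ0
      (‖κ‖ ^ 2 + (C0 - k0)) hCc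
      (fun x' hx' => hbd a x' ha (hC8 x' hx'.le) (Or.inl (hx' ▸ hua)) hx')
      (fun x' hx' => hbd b x' hb (hC8 x' (by
        rw [hx']
        exact div_le_div_of_nonneg_left hκp.le ha hab.le)) (Or.inr (hx' ▸ hub)) hx')
      x (by
        rw [div_lt_iff₀ hb, hκ, norm_mul]
        have := hzab.2
        simp only at this
        nlinarith) (by
        rw [lt_div_iff₀ ha, hκ, norm_mul]
        have := hzab.1
        simp only at this
        nlinarith)
    have h5 : κ / ff K x = z := by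
      rw [hκ]
      field_simp [norm_pos_iff.1 h3]
    rw [h5] at hupp
    linarith
  · have h5 : (x, z) ∈ opn a b := hzab
    have h6 := hlow (x, z) h5
    rw [WW_near P h4.le] at h6
    exact h6

theorem main {a b a₁ b₁ : ℝ} (ha : 0 < a) (h1 : a < a₁) (h2 : a₁ ≤ b₁) (h3 : b₁ < b) :
    ∃ c : ℝ, 0 < c ∧ ∃ φ₁ φ₂ : ℂ → ℝ, IsKahlerPotential c φ₁ ∧ IsKahlerPotential c φ₂ ∧
      ∀ φ : ℂ × ℂ → ℝ, IsWeakGeodesic c a b φ₁ φ₂ φ →
        ∀ z : ℂ, a₁ ≤ ‖z‖ → ‖z‖ ≤ b₁ → ¬ StrictlyPositive c (fun x => φ (x, z)) := by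
  have hab : a < b := by linarith
  have hb : 0 < b := ha.trans hab
  obtain ⟨c, C0, P⟩ := exists_par ha hab
  set K : ℝ := 64 * (1 + b / a) with hKe
  have hK0 : 0 < K := by have := P.hK; linarith
  obtain ⟨s, hs0, hs1, hsa, hsb⟩ : ∃ s : ℝ, 0 < s ∧ s < 1 ∧ a * (1 + s) < a₁ ∧
      b₁ < b * (1 - s) := by
    have hm : 0 < min (a₁ - a) (b - b₁) := lt_min (by linarith) (by linarith)
    have l1 := min_le_left (a₁ - a) (b - b₁)
    have l2 := min_le_right (a₁ - a) (b - b₁)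
    refine ⟨min (a₁ - a) (b - b₁) / (2 * b), by positivity, ?_, ?_, ?_⟩
    · rw [div_lt_one (by positivity)]
      nlinarith
    · have e : min (a₁ - a) (b - b₁) / (2 * b) * (2 * b) = min (a₁ - a) (b - b₁) := by
        field_simp
      have : 0 < min (a₁ - a) (b - b₁) / (2 * b) := by positivity
      nlinarith
    · have e : min (a₁ - a) (b - b₁) / (2 * b) * (2 * b) = min (a₁ - a) (b - b₁) := by
        field_simp
      have : 0 < min (a₁ - a) (b - b₁) / (2 * b) := by positivity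
      nlinarith
  set r0 : ℝ := Real.sqrt (s / K) with hr0
  have hr0p : 0 < r0 := Real.sqrt_pos.2 (by positivity)
  have hrs : K * r0 ^ 2 = s := by
    rw [hr0, Real.sq_sqrt (by positivity)]
    field_simp
  have hr4 : r0 ≤ 1 / 4 := by
    have := P.hK
    nlinarith
  obtain ⟨B, hB⟩ := exists_bump (a := a) ha hK0 hr0p
  refine ⟨c, P.hc, PP K c C0 B a, PP K c C0 B b, PP_kahler P hB hr4 ?_,
    PP_kahler P (hB.mono ha.le hab.le) hr4 ?_, ?_⟩
  · rw [abs_of_pos ha]; linarith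
  · rw [abs_of_pos hb]; linarith
  · intro φ hφ z hz1 hz2
    exact not_strictly P.hc (pin ha hab hKe P hB hs0 hr0p hrs hs1 hφ z (by linarith)
      (by linarith))

end Pool.Agent.TH604.WG
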