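import Pool.Agent.TH604.WG.Global

set_option autoImplicit false

open Set Filter Topology MeasureTheory
open scoped ContDiff

namespace Pool.Agent.TH604.WG

open Pool.Agent.H314.MA (C2)

/-- At a local maximum the second derivatives are nonpositive. -/
theorem hess_le_of_localMax {g : ℂ → ℝ} {x v : ℂ} (hg : ContDiffAt ℝ 2 g x)
    (hmax : IsLocalMax g x) : hess g x v v ≤ 0 := by
  by_contra hcon
  push Not at hcon
  set γ : ℝ → ℂ := fun t => x + (t : ℂ) * v with hγ
  have hγ0 : γ 0 = x := by simp [hγ]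
  have hγd : ∀ t, HasDerivAt γ v t := by
    intro t
    have h1 : HasDerivAt (fun t : ℝ => ((t : ℝ) : ℂ)) 1 t := Complex.ofRealCLM.hasDerivAt
    have h2 := (h1.mul_const v).const_add x
    rw [one_mul] at h2
    exact h2
  have hγc : ContinuousAt γ 0 := (hγd 0).continuousAt
  have hev : ∀ᶠ y in 𝓝 x, DifferentiableAt ℝ g y := by
    filter_upwards [hg.eventually (by simp)] with y hy
    exact hy.differentiableAt (by norm_num)
  have hev' : ∀ᶠ t in 𝓝 (0 : ℝ), DifferentiableAt ℝ g (γ t) := by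
    apply hγc.eventually
    rw [hγ0]; exact hev
  have h1 : deriv (fun t => g (γ t)) =ᶠ[𝓝 0] fun t => fderiv ℝ g (γ t) v := by
    filter_upwards [hev'] with t ht
    exact (ht.hasFDerivAt.comp_hasDerivAt t (hγd t)).deriv
  have hd2 : DifferentiableAt ℝ (fderiv ℝ g) x :=
    (hg.fderiv_right (m := 1) (by norm_num)).differentiableAt (by norm_num)
  have h2 : HasDerivAt (fun t => fderiv ℝ g (γ t) v) (hess g x v v) 0 := by
    have h3 : HasDerivAt (fun t => fderiv ℝ g (γ t)) (fderiv ℝ (fderiv ℝ g) x v) 0 := by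
      have h4 : HasFDerivAt (fderiv ℝ g) (fderiv ℝ (fderiv ℝ g) x) (γ 0) := by
        rw [hγ0]; exact hd2.hasFDerivAt
      exact h4.comp_hasDerivAt 0 (hγd 0)
    have h5 := h3.clm_apply (hasDerivAt_const (0 : ℝ) v)
    simpa [hess] using h5
  have h3 : deriv (deriv (fun t => g (γ t))) 0 = hess g x v v := by
    rw [h1.deriv_eq]
    exact h2.deriv
  have hmax' : IsLocalMax (fun t => g (γ t)) 0 := by
    have : ∀ᶠ t in 𝓝 (0 : ℝ), g (γ t) ≤ g (γ 0) := by
      apply hγc.eventually (p := fun y => g y ≤ g (γ 0))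
      rw [hγ0]; exact hmax
    exact this
  have hcont : ContinuousAt (fun t => g (γ t)) 0 := by
    apply ContinuousAt.comp (g := g)
    · rw [hγ0]; exact hg.continuousAt
    · exact hγc
  have hmin : IsLocalMin (fun t => g (γ t)) 0 :=
    isLocalMin_of_deriv_deriv_pos (by rw [h3]; exact hcon) hmax'.deriv_eq_zero hcont
  have hconst : (fun t => g (γ t)) =ᶠ[𝓝 0] fun _ => g (γ 0) := by
    filter_upwards [hmax', hmin] with t h1 h2
    exact le_antisymm h1 h2
  have h4 : deriv (fun t => g (γ t)) =ᶠ[𝓝 0] fun _ => 0 := by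
    have := hconst.deriv
    filter_upwards [this] with t ht
    rw [ht]
    simp
  have h5 : deriv (deriv (fun t => g (γ t))) 0 = 0 := by
    rw [h4.deriv_eq]
    simp
  rw [h3] at h5
  linarith

/-- The maximum principle for smooth subharmonic functions. -/
theorem max_principle {N : Set ℂ} (hN : IsOpen N) (hNc : IsCompact (closure N)) {g : ℂ → ℝ}
    (hgc : ∀ x ∈ closure N, ContinuousAt g x) (hgs : ∀ x ∈ N, ContDiffAt ℝ 2 g x)
    (hgl : ∀ x ∈ N, 0 ≤ lap g x) {M : ℝ} (hM : ∀ x ∈ frontier N, g x ≤ M) :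
    ∀ x ∈ N, g x ≤ M := by
  intro x0 hx0
  by_contra hcon
  push Not at hcon
  obtain ⟨C, hC⟩ := hNc.exists_bound_of_continuousOn (f := fun x : ℂ => ‖x‖ ^ 2) (by fun_prop)
  have hC0 : 0 ≤ C := (norm_nonneg _).trans (hC x0 (subset_closure hx0))
  set ε : ℝ := (g x0 - M) / (2 * (C + 1)) with hε
  have hε0 : 0 < ε := by
    rw [hε]; apply div_pos (by linarith) (by positivity)
  have hεC : ε * C < g x0 - M := by
    rw [hε, div_mul_eq_mul_div, div_lt_iff₀ (by positivity)]
    nlinarith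
  set G : ℂ → ℝ := fun x => g x + ε * ‖x‖ ^ 2 with hG
  have hGc : ContinuousOn G (closure N) := by
    intro x hx
    apply ContinuousAt.continuousWithinAt
    exact (hgc x hx).add (by fun_prop)
  obtain ⟨xm, hxm, hmax⟩ := hNc.exists_isMaxOn ⟨x0, subset_closure hx0⟩ hGc
  have hGm : G x0 ≤ G xm := hmax (subset_closure hx0)
  have hxmN : xm ∈ N := by
    by_contra h
    have hfr : xm ∈ frontier N := by
      rw [frontier, hN.interior_eq]; exact ⟨hxm, h⟩
    have h1 := hM xm hfr
    have h2 := hC xm hxm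
    rw [Real.norm_eq_abs, abs_of_nonneg (by positivity)] at h2
    have h3 : ε * ‖xm‖ ^ 2 ≤ ε * C := mul_le_mul_of_nonneg_left h2 hε0.le
    have h4 : 0 ≤ ε * ‖x0‖ ^ 2 := by positivity
    simp only [hG] at hGm
    linarith
  have hloc : IsLocalMax G xm := by
    filter_upwards [hN.mem_nhds hxmN] with y hy
    exact hmax (subset_closure hy)
  have hn2 : ContDiff ℝ 2 (fun x : ℂ => ‖x‖ ^ 2) := contDiff_id.norm_sq ℝ
  have hGs : ContDiffAt ℝ 2 G xm := (hgs xm hxmN).add (contDiff_const.mul hn2).contDiffAt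
  have h1 := hess_le_of_localMax (v := 1) hGs hloc
  have h2 := hess_le_of_localMax (v := Complex.I) hGs hloc
  have key : ∀ v w, hess G xm v w = hess g xm v w + ε * (2 * (inner ℝ v w : ℝ)) := by
    intro v w
    have d1 : ∀ {f : ℂ → ℝ}, ContDiffAt ℝ 2 f xm → ∀ᶠ y in 𝓝 xm, DifferentiableAt ℝ f y := by
      intro f hf
      filter_upwards [hf.eventually (by simp)] with y hy
      exact hy.differentiableAt (by norm_num)
    have hfd : fderiv ℝ G =ᶠ[𝓝 xm] fun y => fderiv ℝ g y +
        ε • fderiv ℝ (fun x : ℂ => ‖x‖ ^ 2) y := by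
      filter_upwards [d1 (hgs xm hxmN)] with y hy
      rw [hG, fderiv_fun_add hy ((contDiff_const.mul hn2).differentiable (by norm_num) y)]
      congr 1
      exact fderiv_const_mul (hn2.differentiable (by norm_num) y) ε
    have e1 : DifferentiableAt ℝ (fderiv ℝ g) xm :=
      ((hgs xm hxmN).fderiv_right (m := 1) (by norm_num)).differentiableAt (by norm_num)
    have e2 : DifferentiableAt ℝ (fderiv ℝ (fun x : ℂ => ‖x‖ ^ 2)) xm :=
      (hn2.contDiffAt.fderiv_right (m := 1) (by norm_num)).differentiableAt (by norm_num)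
    have e3 := hess_nsq (ContinuousLinearMap.id ℝ ℂ) 0 xm v w
    simp only [ContinuousLinearMap.id_apply, sub_zero] at e3
    unfold hess at e3 ⊢
    have e4 : HasFDerivAt (fun y => fderiv ℝ g y + ε • fderiv ℝ (fun x : ℂ => ‖x‖ ^ 2) y)
        (fderiv ℝ (fderiv ℝ g) xm + ε • fderiv ℝ (fderiv ℝ (fun x : ℂ => ‖x‖ ^ 2)) xm) xm :=
      e1.hasFDerivAt.add (e2.hasFDerivAt.const_smul ε)
    rw [hfd.fderiv_eq, e4.fderiv]
    simp only [add_apply, smul_apply, smul_eq_mul]
    rw [e3]
  have h3 : lap G xm = lap g xm + 4 * ε := by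
    unfold lap
    rw [key, key, real_inner_self_eq_norm_sq, real_inner_self_eq_norm_sq, Complex.norm_I,
      norm_one]
    ring
  have h4 := hgl xm hxmN
  unfold lap at h3 h4
  linarith

section comp

theorem fderiv_real_of_complex {t : ℂ → ℂ} {y : ℂ} (h : DifferentiableAt ℂ t y) :
    fderiv ℝ t y = ContinuousLinearMap.mul ℝ ℂ (deriv t y) := by
  have h1 := (h.hasDerivAt.hasFDerivAt.restrictScalars ℝ).fderiv
  rw [h1]
  ext
  simp [mul_comm]

theorem fderiv2_real_of_complex {t : ℂ → ℂ} {x : ℂ} (h : AnalyticAt ℂ t x) (v w : ℂ) :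
    fderiv ℝ (fderiv ℝ t) x v w = deriv (deriv t) x * v * w := by
  have h1 : fderiv ℝ t =ᶠ[𝓝 x] fun y => ContinuousLinearMap.mul ℝ ℂ (deriv t y) := by
    filter_upwards [h.eventually_analyticAt] with y hy
    exact fderiv_real_of_complex hy.differentiableAt
  rw [h1.fderiv_eq]
  have h2 : DifferentiableAt ℂ (deriv t) x := h.deriv.differentiableAt
  have h3 : HasFDerivAt (deriv t) (ContinuousLinearMap.mul ℝ ℂ (deriv (deriv t) x)) x := by
    have := h2.restrictScalars ℝ
    have h4 := this.hasFDerivAt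
    rwa [fderiv_real_of_complex h2] at h4
  have h4 := (ContinuousLinearMap.mul ℝ ℂ).hasFDerivAt.comp x h3
  have h5 : fderiv ℝ (fun y => ContinuousLinearMap.mul ℝ ℂ (deriv t y)) x =
    (ContinuousLinearMap.mul ℝ ℂ).comp (ContinuousLinearMap.mul ℝ ℂ (deriv (deriv t) x)) :=
    h4.fderiv
  rw [h5]
  simp

/-- The Laplacian of a function along the holomorphic curve `x ↦ (x, t(x))`. -/
theorem lap_comp {v : C2 → ℝ} {t : ℂ → ℂ} {x : ℂ} (hv : ContDiffAt ℝ 2 v (x, t x))
    (ht : AnalyticAt ℂ t x) :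
    lap (fun y => v (y, t y)) x = 4 * levi v (x, t x) (1, deriv t x) := by
  have htc : ContDiffAt ℝ 2 t x := (ht.contDiffAt (n := 2)).restrict_scalars ℝ
  have hT : ContDiffAt ℝ 2 (fun y : ℂ => (y, t y)) x := contDiffAt_id.prodMk htc
  have hfd : fderiv ℝ (fun y : ℂ => (y, t y)) =ᶠ[𝓝 x] fun y =>
      (ContinuousLinearMap.id ℝ ℂ).prod (fderiv ℝ t y) := by
    filter_upwards [ht.eventually_analyticAt] with y hy
    have h1 : HasFDerivAt t (fderiv ℝ t y) y :=
      (hy.differentiableAt.restrictScalars ℝ).hasFDerivAt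
    exact ((hasFDerivAt_id y).prodMk h1).fderiv
  have h2 : ∀ a b : ℂ, fderiv ℝ (fderiv ℝ (fun y : ℂ => (y, t y))) x a b =
      (0, deriv (deriv t) x * a * b) := by
    intro a b
    rw [hfd.fderiv_eq]
    have hd : DifferentiableAt ℝ (fderiv ℝ t) x :=
      (htc.fderiv_right (m := 1) (by norm_num)).differentiableAt (by norm_num)
    have h3 : HasFDerivAt (fun y => (ContinuousLinearMap.id ℝ ℂ).prod (fderiv ℝ t y))
        ((ContinuousLinearMap.inr ℝ ℂ ℂ).postcomp ℂ ∘L fderiv ℝ (fderiv ℝ t) x) x := by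
      have e : (fun y => (ContinuousLinearMap.id ℝ ℂ).prod (fderiv ℝ t y)) = fun y =>
          ContinuousLinearMap.inl ℝ ℂ ℂ + (ContinuousLinearMap.inr ℝ ℂ ℂ).postcomp ℂ
            (fderiv ℝ t y) := by
        funext y
        ext v <;> simp
      rw [e]
      exact ((ContinuousLinearMap.hasFDerivAt _).comp x hd.hasFDerivAt).const_add _
    rw [h3.fderiv]
    simp [fderiv2_real_of_complex ht]
  have hs := fun a b => Pool.Agent.H314.MA.snd_comp_gen (f := fun y : ℂ => (y, t y)) (g := v)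
    (z := x) hv hT a b
  have hf1 : ∀ a : ℂ, fderiv ℝ (fun y : ℂ => (y, t y)) x a = (a, deriv t x * a) := by
    intro a
    rw [hfd.self_of_nhds]
    simp only
    rw [fderiv_real_of_complex ht.differentiableAt]
    simp
  unfold lap levi hess
  rw [hs, hs, h2, h2, hf1, hf1]
  have e1 : ((1 : ℂ), deriv t x * 1) = ((1 : ℂ), deriv t x) := by rw [mul_one]
  have e2 : (Complex.I, deriv t x * Complex.I) = Complex.I • ((1 : ℂ), deriv t x) := by
    ext1
    · simp
    · simp [mul_comm]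
  have e3 : ((0 : ℂ), deriv (deriv t) x * Complex.I * Complex.I) =
      -((0 : ℂ), deriv (deriv t) x * 1 * 1) := by
    ext1
    · simp
    · simp [mul_assoc]
  rw [e1, e2, e3, map_neg]
  ring

end comp

end Pool.Agent.TH604.WG
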