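import Pool.Agent.TH604.WG.Upper

set_option autoImplicit false

open Set Filter Topology MeasureTheory
open scoped ContDiff

namespace Pool.Agent.TH604.WG

/-- the Gaussian integer nearest to `x` -/
noncomputable def rd (x : ℂ) : ℂ := ⟨(round x.re : ℝ), (round x.im : ℝ)⟩

theorem rd_add_one (x : ℂ) : rd (x + 1) = rd x + 1 := by
  unfold rd
  apply Complex.ext
  · simp [round_add_one]
  · simp

theorem rd_add_I (x : ℂ) : rd (x + Complex.I) = rd x + Complex.I := by
  unfold rd
  apply Complex.ext
  · simp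
  · simp [round_add_one]

theorem sub_rd_add_one (x : ℂ) : x + 1 - rd (x + 1) = x - rd x := by
  rw [rd_add_one]; ring

theorem sub_rd_add_I (x : ℂ) : x + Complex.I - rd (x + Complex.I) = x - rd x := by
  rw [rd_add_I]; ring

theorem nsq_eq (y : ℂ) : ‖y‖ ^ 2 = y.re ^ 2 + y.im ^ 2 := by
  rw [← Complex.normSq_eq_norm_sq, Complex.normSq_apply]; ring

theorem sub_rd_sq (x : ℂ) : ‖x - rd x‖ ^ 2 ≤ 1 / 2 := by
  rw [nsq_eq]
  have h1 := abs_sub_round x.re
  have h2 := abs_sub_round x.im
  have e1 : (x - rd x).re = x.re - round x.re := by simp [rd]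
  have e2 : (x - rd x).im = x.im - round x.im := by simp [rd]
  rw [e1, e2]
  have h3 := sq_le_sq' (by linarith [abs_nonneg (x.re - round x.re)]) h1
  have h4 := sq_le_sq' (by linarith [abs_nonneg (x.im - round x.im)]) h2
  rw [sq_abs] at h3 h4
  linarith

theorem round_eq_of {t : ℝ} {n : ℤ} (h : |t - n| < 1 / 2) : round t = n := by
  have h1 := abs_sub_round t
  have h2 : |((round t : ℝ) - n)| < 1 := by
    calc |((round t : ℝ) - n)| = |(t - n) - (t - round t)| := by ring_nf
      _ ≤ |t - n| + |t - round t| := abs_sub _ _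
      _ < 1 := by linarith
  have h3 : |(round t - n : ℤ)| < 1 := by
    have : ((|(round t - n : ℤ)| : ℤ) : ℝ) < 1 := by
      push_cast
      exact h2
    exact_mod_cast this
  have h4 := Int.abs_lt_one_iff.1 h3
  omega

theorem rd_eq_of {x x0 : ℂ} (h : ‖x - rd x0‖ < 1 / 2) : rd x = rd x0 := by
  have h1 : |x.re - round x0.re| < 1 / 2 := by
    refine lt_of_le_of_lt ?_ h
    have := Complex.abs_re_le_norm (x - rd x0)
    simpa [rd] using this
  have h2 : |x.im - round x0.im| < 1 / 2 := by
    refine lt_of_le_of_lt ?_ h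
    have := Complex.abs_im_le_norm (x - rd x0)
    simpa [rd] using this
  unfold rd
  rw [round_eq_of h1, round_eq_of h2]

theorem continuous_sub_rd : Continuous fun x : ℂ => ‖x - rd x‖ := by
  have h1 : ∀ x : ℂ, ‖x - rd x‖ = Real.sqrt (‖(x.re : UnitAddCircle)‖ ^ 2 +
      ‖(x.im : UnitAddCircle)‖ ^ 2) := by
    intro x
    rw [UnitAddCircle.norm_eq, UnitAddCircle.norm_eq, sq_abs, sq_abs]
    symm
    rw [Real.sqrt_eq_iff_mul_self_eq (by positivity) (norm_nonneg _), ← sq, nsq_eq]
    simp [rd]
  simp only [h1]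
  apply Continuous.sqrt
  have c1 : Continuous fun x : ℂ => ((x.re : ℝ) : UnitAddCircle) :=
    (AddCircle.continuous_mk' 1).comp Complex.continuous_re
  have c2 : Continuous fun x : ℂ => ((x.im : ℝ) : UnitAddCircle) :=
    (AddCircle.continuous_mk' 1).comp Complex.continuous_im
  exact (c1.norm.pow 2).add (c2.norm.pow 2)

theorem per_cases (x0 : ℂ) : (∀ᶠ x in 𝓝 x0, rd x = rd x0) ∨
    ((1 / 4 < ‖x0 - rd x0‖) ∧ ∀ᶠ x in 𝓝 x0, 1 / 4 < ‖x - rd x‖) := by
  by_cases h : 1 / 4 < ‖x0 - rd x0‖
  · right
    exact ⟨h, continuous_sub_rd.continuousAt.eventually (lt_mem_nhds h)⟩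
  · left
    push Not at h
    have h1 : ContinuousAt (fun x => ‖x - rd x0‖) x0 := by fun_prop
    have h2 : ∀ᶠ x in 𝓝 x0, ‖x - rd x0‖ < 1 / 2 := h1.eventually (gt_mem_nhds (by linarith))
    filter_upwards [h2] with x hx
    exact rd_eq_of hx

/-- the smooth convex function `∫₀ᵗ smoothTransition` -/
noncomputable def hh (t : ℝ) : ℝ := ∫ s in (0 : ℝ)..t, Real.smoothTransition s

theorem hh_hasDerivAt (t : ℝ) : HasDerivAt hh (Real.smoothTransition t) t :=
  intervalIntegral.integral_hasDerivAt_right
    (Real.smoothTransition.continuous.intervalIntegrable _ _)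
    (Real.smoothTransition.continuous.stronglyMeasurableAtFilter _ _)
    Real.smoothTransition.continuousAt

theorem deriv_hh : deriv hh = Real.smoothTransition := by
  funext t; exact (hh_hasDerivAt t).deriv

theorem hh_contDiff : ContDiff ℝ ∞ hh := by
  rw [contDiff_infty_iff_deriv]
  refine ⟨fun t => (hh_hasDerivAt t).differentiableAt, ?_⟩
  rw [deriv_hh]
  exact Real.smoothTransition.contDiff

theorem deriv2_hh_nonneg (t : ℝ) : 0 ≤ deriv (deriv hh) t := by
  rw [deriv_hh]
  exact Real.smoothTransition.monotone.deriv_nonneg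

theorem hh_of_nonpos {t : ℝ} (ht : t ≤ 0) : hh t = 0 := by
  unfold hh
  rw [intervalIntegral.integral_symm, neg_eq_zero]
  have : ∫ s in t..0, Real.smoothTransition s = ∫ s in t..0, (0 : ℝ) := by
    apply intervalIntegral.integral_congr
    intro s hs
    rw [uIcc_of_le ht] at hs
    exact Real.smoothTransition.zero_of_nonpos hs.2
  rw [this]; simp

/-- the constant by which `hh` differs from the identity on `[1, ∞)` -/
noncomputable def k0 : ℝ := 1 - hh 1

theorem hh_of_one_le {t : ℝ} (ht : 1 ≤ t) : hh t = t - k0 := by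
  have h1 : hh t = hh 1 + ∫ s in (1 : ℝ)..t, Real.smoothTransition s := by
    unfold hh
    exact (intervalIntegral.integral_add_adjacent_intervals
      (Real.smoothTransition.continuous.intervalIntegrable _ _)
      (Real.smoothTransition.continuous.intervalIntegrable _ _)).symm
  have h2 : ∫ s in (1 : ℝ)..t, Real.smoothTransition s = ∫ s in (1 : ℝ)..t, (1 : ℝ) := by
    apply intervalIntegral.integral_congr
    intro s hs
    rw [uIcc_of_le ht] at hs
    exact Real.smoothTransition.one_of_one_le hs.1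
  rw [h1, h2]
  unfold k0
  simp
  ring

theorem hh_mono : Monotone hh := by
  apply monotone_of_deriv_nonneg (hh_contDiff.differentiable (by simp))
  intro t
  rw [deriv_hh]
  exact Real.smoothTransition.nonneg t

end Pool.Agent.TH604.WG
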