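import Pool.Agent.TH604.WG.Dom2

set_option autoImplicit false

open Set Filter Topology MeasureTheory
open scoped ContDiff

namespace Pool.Agent.TH604.WG

open Pool.Agent.H314.MA (C2)

section gen

variable {E : Type*} [NormedAddCommGroup E] [NormedSpace ℝ E]

theorem nsq_hasFDerivAt (L : E →L[ℝ] ℂ) (x0 : ℂ) (p : E) :
    HasFDerivAt (fun p => ‖L p - x0‖ ^ 2) (2 • (innerSL ℝ (L p - x0)).comp L) p := by
  have h1 : HasFDerivAt (fun p => L p - x0) L p := L.hasFDerivAt.sub_const x0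
  exact h1.norm_sq

theorem hess_nsq (L : E →L[ℝ] ℂ) (x0 : ℂ) (p v w : E) :
    hess (fun p => ‖L p - x0‖ ^ 2) p v w = 2 * (inner ℝ (L v) (L w) : ℝ) := by
  unfold hess
  have h1 : fderiv ℝ (fun p => ‖L p - x0‖ ^ 2) = fun p => 2 • (innerSL ℝ (L p - x0)).comp L := by
    funext y
    exact (nsq_hasFDerivAt L x0 y).fderiv
  rw [h1]
  have h2 : HasFDerivAt (fun p => 2 • (innerSL ℝ (L p - x0)).comp L)
      (2 • (((ContinuousLinearMap.compL ℝ E ℂ ℝ).flip L).comp ((innerSL ℝ).comp L))) p := by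
    have h3 : HasFDerivAt (fun p => L p - x0) L p := L.hasFDerivAt.sub_const x0
    have h4 : HasFDerivAt (fun p => innerSL ℝ (L p - x0)) ((innerSL ℝ).comp L) p :=
      (innerSL ℝ (E := ℂ)).hasFDerivAt.comp p h3
    have h5 : HasFDerivAt (fun p => (innerSL ℝ (L p - x0)).comp L)
        (((ContinuousLinearMap.compL ℝ E ℂ ℝ).flip L).comp ((innerSL ℝ).comp L)) p := by
      exact (((ContinuousLinearMap.compL ℝ E ℂ ℝ).flip L).hasFDerivAt.comp p h4)
    exact h5.const_smul 2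
  rw [h2.fderiv]
  simp
  ring

theorem nsq_contDiff {n : WithTop ℕ∞} (L : E →L[ℝ] ℂ) (x0 : ℂ) :
    ContDiff ℝ n (fun p => ‖L p - x0‖ ^ 2) :=
  (L.contDiff.sub contDiff_const).norm_sq ℝ

end gen

theorem levi_nsq (L : C2 →L[ℂ] ℂ) (x0 : ℂ) (p w : C2) :
    levi (fun p => ‖L p - x0‖ ^ 2) p w = ‖L w‖ ^ 2 := by
  unfold levi
  have h := fun v w => hess_nsq (L.restrictScalars ℝ) x0 p v w
  have e : (fun p => ‖L.restrictScalars ℝ p - x0‖ ^ 2) = fun p : C2 => ‖L p - x0‖ ^ 2 := rfl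
  rw [e] at h
  rw [h, h, real_inner_self_eq_norm_sq, real_inner_self_eq_norm_sq]
  have h1 : (L.restrictScalars ℝ) w = L w := rfl
  have h2 : (L.restrictScalars ℝ) (Complex.I • w) = Complex.I * L w := by
    show L (Complex.I • w) = _
    rw [map_smul, smul_eq_mul]
  rw [h1, h2, norm_mul, Complex.norm_I, one_mul]
  ring

theorem levi_add' (u v : C2 → ℝ) (z : C2) (hu : ContDiffAt ℝ 2 u z) (hv : ContDiffAt ℝ 2 v z)
    (w : C2) : levi (fun z => u z + v z) z w = levi u z w + levi v z w :=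
  Pool.Agent.H314.MA.levi_add u v z hu hv w

theorem levi_const_mul (c : ℝ) (u : C2 → ℝ) (z : C2) (hu : ContDiffAt ℝ 2 u z) (w : C2) :
    levi (fun z => c * u z) z w = c * levi u z w := by
  have h := Pool.Agent.H314.MA.hess_const_mul c u z hu
  have h1 := h w w
  have h2 := h (Complex.I • w) (Complex.I • w)
  unfold levi hess
  unfold Pool.Agent.H314.MA.hess at h1 h2
  rw [h1, h2]
  ring

theorem levi_const (c : ℝ) (z w : C2) : levi (fun _ => c) z w = 0 := by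
  unfold levi hess
  have h1 : fderiv ℝ (fun _ : C2 => c) = fun _ => 0 := by
    funext y; exact fderiv_const_apply _
  rw [h1, fderiv_const_apply]
  simp

theorem levi_congr' {u v : C2 → ℝ} {z : C2} (h : u =ᶠ[𝓝 z] v) (w : C2) :
    levi u z w = levi v z w := Pool.Agent.H314.MA.levi_congr h w

/-- the quadratic functions used as perturbations -/
noncomputable def quad (α β : ℝ) (q : C2) (k : ℝ) (p : C2) : ℝ :=
  (α * ‖p.1 - q.1‖ ^ 2 + β * ‖p.2 - q.2‖ ^ 2) + k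

theorem quad_contDiff (α β : ℝ) (q : C2) (k : ℝ) : ContDiff ℝ ∞ (quad α β q k) := by
  unfold quad
  have h1 := nsq_contDiff (n := ∞) (ContinuousLinearMap.fst ℝ ℂ ℂ) q.1
  have h2 := nsq_contDiff (n := ∞) (ContinuousLinearMap.snd ℝ ℂ ℂ) q.2
  exact ((contDiff_const.mul h1).add (contDiff_const.mul h2)).add contDiff_const

theorem levi_quad (α β : ℝ) (q : C2) (k : ℝ) (p w : C2) :
    levi (quad α β q k) p w = α * ‖w.1‖ ^ 2 + β * ‖w.2‖ ^ 2 := by
  have h1 : ContDiff ℝ 2 (fun p : C2 => ‖p.1 - q.1‖ ^ 2) :=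
    nsq_contDiff (ContinuousLinearMap.fst ℝ ℂ ℂ) q.1
  have h2 : ContDiff ℝ 2 (fun p : C2 => ‖p.2 - q.2‖ ^ 2) :=
    nsq_contDiff (ContinuousLinearMap.snd ℝ ℂ ℂ) q.2
  have a1 : ContDiff ℝ 2 (fun p : C2 => α * ‖p.1 - q.1‖ ^ 2) := contDiff_const.mul h1
  have a2 : ContDiff ℝ 2 (fun p : C2 => β * ‖p.2 - q.2‖ ^ 2) := contDiff_const.mul h2
  unfold quad
  rw [levi_add' _ _ p (a1.add a2).contDiffAt contDiffAt_const, levi_const, add_zero,
    levi_add' _ _ p a1.contDiffAt a2.contDiffAt, levi_const_mul _ _ p h1.contDiffAt,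
    levi_const_mul _ _ p h2.contDiffAt]
  have e1 := levi_nsq (ContinuousLinearMap.fst ℂ ℂ ℂ) q.1 p w
  have e2 := levi_nsq (ContinuousLinearMap.snd ℂ ℂ ℂ) q.2 p w
  have e1' : levi (fun p : C2 => ‖p.1 - q.1‖ ^ 2) p w = ‖w.1‖ ^ 2 := e1
  have e2' : levi (fun p : C2 => ‖p.2 - q.2‖ ^ 2) p w = ‖w.2‖ ^ 2 := e2
  rw [e1', e2']

end Pool.Agent.TH604.WG
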