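import Pool.Agent.TH604.WG.MaxP

set_option autoImplicit false

open Set Filter Topology MeasureTheory
open scoped ContDiff

namespace Pool.Agent.TH604.WG

open Pool.Agent.H314.MA (C2)

/-- **Upper bound along holomorphic curves** `x ↦ (x, κ / f(x))`. -/
theorem upper_bound {c a b : ℝ} (ha : 0 < a) (hab : a < b) {φ₁ φ₂ : ℂ → ℝ} {φ : ℂ × ℂ → ℝ}
    (hφ : IsWeakGeodesic c a b φ₁ φ₂ φ) (f : ℂ → ℂ) (hf : Differentiable ℂ f) (κ : ℂ) (hκ : κ ≠ 0)
    (S : ℝ) (hC : IsCompact {x | ‖κ‖ / b ≤ ‖f x‖ ∧ ‖f x‖ ≤ ‖κ‖ / a})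
    (h₁ : ∀ x, ‖f x‖ = ‖κ‖ / a → c * ‖x‖ ^ 2 + φ₁ x ≤ S)
    (h₂ : ∀ x, ‖f x‖ = ‖κ‖ / b → c * ‖x‖ ^ 2 + φ₂ x ≤ S) :
    ∀ x, ‖κ‖ / b < ‖f x‖ → ‖f x‖ < ‖κ‖ / a → c * ‖x‖ ^ 2 + φ (x, κ / f x) ≤ S := by
  have hb : 0 < b := ha.trans hab
  have hκ0 : 0 < ‖κ‖ := norm_pos_iff.2 hκ
  set C : Set ℂ := {x | ‖κ‖ / b ≤ ‖f x‖ ∧ ‖f x‖ ≤ ‖κ‖ / a} with hCdef
  set N : Set ℂ := {x | ‖κ‖ / b < ‖f x‖ ∧ ‖f x‖ < ‖κ‖ / a} with hNdef
  have hNo : IsOpen N := by
    have h1 : IsOpen {x | ‖κ‖ / b < ‖f x‖} := isOpen_lt continuous_const hf.continuous.norm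
    have h2 : IsOpen {x | ‖f x‖ < ‖κ‖ / a} := isOpen_lt hf.continuous.norm continuous_const
    exact h1.inter h2
  have hNC : N ⊆ C := fun x hx => ⟨hx.1.le, hx.2.le⟩
  have hfpos : ∀ x ∈ C, 0 < ‖f x‖ := fun x hx => lt_of_lt_of_le (by positivity) hx.1
  have hf0 : ∀ x ∈ C, f x ≠ 0 := fun x hx => norm_pos_iff.1 (hfpos x hx)
  set t : ℂ → ℂ := fun x => κ / f x with ht
  have htn : ∀ x, ‖t x‖ = ‖κ‖ / ‖f x‖ := fun x => by simp [ht]
  have htC : ∀ x ∈ C, (x, t x) ∈ cls a b := by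
    intro x hx
    have hp := hfpos x hx
    refine ⟨?_, ?_⟩
    · show a ≤ ‖t x‖
      rw [htn, le_div_iff₀ hp]
      have := (le_div_iff₀ ha).1 hx.2
      linarith
    · show ‖t x‖ ≤ b
      rw [htn, div_le_iff₀ hp]
      have := (div_le_iff₀ hb).1 hx.1
      linarith
  have htN : ∀ x ∈ N, (x, t x) ∈ opn a b := by
    intro x hx
    have hp := hfpos x (hNC hx)
    refine ⟨?_, ?_⟩
    · show a < ‖t x‖
      rw [htn, lt_div_iff₀ hp]
      have := (lt_div_iff₀ ha).1 hx.2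
      linarith
    · show ‖t x‖ < b
      rw [htn, div_lt_iff₀ hp]
      have := (div_lt_iff₀ hb).1 hx.1
      linarith
  have htan : ∀ x, f x ≠ 0 → AnalyticAt ℂ t x := by
    intro x hx
    exact analyticAt_const.div (hf.analyticAt x) hx
  have hTc : ∀ x, f x ≠ 0 → ContinuousAt (fun x => (x, t x)) x := fun x hx =>
    continuousAt_id.prodMk (htan x hx).continuousAt
  set u : C2 → ℝ := fun p => c * ‖p.1‖ ^ 2 + φ p with hu
  set g : ℂ → ℝ := fun x => u (x, t x) with hg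
  have hcc : Continuous fun p : C2 => c * ‖p.1‖ ^ 2 := by fun_prop
  -- upper semicontinuity of `g` on `C`
  have husc : UpperSemicontinuousOn g C := by
    intro x hx y hy
    have hTw : Tendsto (fun x => (x, t x)) (𝓝[C] x) (𝓝[cls a b] (x, t x)) := by
      rw [tendsto_nhdsWithin_iff]
      refine ⟨(hTc x (hf0 x hx)).tendsto.mono_left nhdsWithin_le_nhds, ?_⟩
      filter_upwards [self_mem_nhdsWithin] with x' hx'
      exact htC x' hx'
    have hbd : ContinuousWithinAt φ (cls a b) (x, t x) → ∀ᶠ x' in 𝓝[C] x, g x' < y := by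
      intro hcw
      have h1 : ContinuousWithinAt u (cls a b) (x, t x) := hcc.continuousWithinAt.add hcw
      have h2 : Tendsto g (𝓝[C] x) (𝓝 (g x)) := Tendsto.comp h1 hTw
      exact h2.eventually (gt_mem_nhds hy)
    by_cases hxN : x ∈ N
    · have h1 := hφ.psh.1 (x, t x) (htN x hxN) y hy
      have h2 : Tendsto (fun x => (x, t x)) (𝓝[C] x) (𝓝[opn a b] (x, t x)) := by
        rw [tendsto_nhdsWithin_iff]
        refine ⟨(hTc x (hf0 x hx)).tendsto.mono_left nhdsWithin_le_nhds, ?_⟩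
        filter_upwards [nhdsWithin_le_nhds (hNo.mem_nhds hxN)] with x' hx'
        exact htN x' hx'
      exact h2.eventually h1
    · have hor : ‖f x‖ = ‖κ‖ / a ∨ ‖f x‖ = ‖κ‖ / b := by
        by_contra hno
        push Not at hno
        exact hxN ⟨lt_of_le_of_ne hx.1 (Ne.symm hno.2), lt_of_le_of_ne hx.2 hno.1⟩
      rcases hor with h | h
      · exact hbd (hφ.boundary_a x (t x) (by rw [htn, h]; field_simp)).2
      · exact hbd (hφ.boundary_b x (t x) (by rw [htn, h]; field_simp)).2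
  -- boundary values
  have hgb : ∀ x ∈ C, x ∉ N → g x ≤ S := by
    intro x hx hxN
    have hor : ‖f x‖ = ‖κ‖ / a ∨ ‖f x‖ = ‖κ‖ / b := by
      by_contra hno
      push Not at hno
      exact hxN ⟨lt_of_le_of_ne hx.1 (Ne.symm hno.2), lt_of_le_of_ne hx.2 hno.1⟩
    rcases hor with h | h
    · have h3 := (hφ.boundary_a x (t x) (by rw [htn, h]; field_simp)).1
      show c * ‖x‖ ^ 2 + φ (x, t x) ≤ S
      rw [h3]
      exact h₁ x h
    · have h3 := (hφ.boundary_b x (t x) (by rw [htn, h]; field_simp)).1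
      show c * ‖x‖ ^ 2 + φ (x, t x) ≤ S
      rw [h3]
      exact h₂ x h
  intro x0 hx0b hx0a
  by_contra hcon
  push Not at hcon
  have hx0N : x0 ∈ N := ⟨hx0b, hx0a⟩
  set η : ℝ := (g x0 - S) / 2 with hη
  have hη0 : 0 < η := by
    have : S < g x0 := hcon
    rw [hη]; linarith
  -- the compact superlevel set
  obtain ⟨V, hV, hVe⟩ := upperSemicontinuousOn_iff_preimage_Ici.1 husc (S + η)
  set K1 : Set ℂ := C ∩ g ⁻¹' Ici (S + η) with hK1
  have hK1c : IsCompact K1 := by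
    rw [hVe]
    exact hC.inter_right hV
  have hK1N : K1 ⊆ N := by
    intro x hx
    by_contra h
    have h1 := hgb x hx.1 h
    have h2 : S + η ≤ g x := hx.2
    linarith
  obtain ⟨N', hN'o, hKN', hN'N, hN'c⟩ := exists_open_between_and_isCompact_closure hK1c hNo hK1N
  have hx0K : x0 ∈ K1 := by
    refine ⟨hNC hx0N, ?_⟩
    show S + η ≤ g x0
    rw [hη]
    have : S < g x0 := hcon
    linarith
  -- a relatively compact neighbourhood of the curve
  have hTcl : ContinuousOn (fun x => (x, t x)) (closure N') := fun x hx =>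
    (hTc x (hf0 x (hNC (hN'N hx)))).continuousWithinAt
  have himc : IsCompact ((fun x => (x, t x)) '' closure N') := hN'c.image_of_continuousOn hTcl
  have himo : (fun x => (x, t x)) '' closure N' ⊆ opn a b := by
    rintro _ ⟨x, hx, rfl⟩
    exact htN x (hN'N hx)
  obtain ⟨U, hUo, hUi, hUcl, hUc⟩ :=
    exists_open_between_and_isCompact_closure himc (isOpen_opn a b) himo
  obtain ⟨v, hv, hvl, hanti, hlim, -⟩ := hφ.ma U hUo hUc hUcl
  have hTU : ∀ x ∈ closure N', (x, t x) ∈ U := fun x hx => hUi ⟨x, hx, rfl⟩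
  -- Dini type argument on the frontier
  obtain ⟨k, hk⟩ : ∃ k, ∀ x ∈ frontier N', v k (x, t x) ≤ S + η := by
    have hfrc : IsCompact (frontier N') := hN'c.of_isClosed_subset isClosed_frontier
      frontier_subset_closure
    have hWo : IsOpen {x : ℂ | f x ≠ 0} := isOpen_ne_fun hf.continuous continuous_const
    have hTcon : ContinuousOn (fun x => (x, t x)) {x : ℂ | f x ≠ 0} := fun x hx =>
      (hTc x hx).continuousWithinAt
    obtain ⟨k, hk⟩ := hfrc.elim_directed_cover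
      (fun k => {x : ℂ | f x ≠ 0 ∧ (x, t x) ∈ U ∧ v k (x, t x) < S + η}) (by
        intro k
        have hO : IsOpen (U ∩ (v k) ⁻¹' (Iio (S + η))) :=
          (hv k).continuousOn.isOpen_inter_preimage hUo isOpen_Iio
        exact hTcon.isOpen_inter_preimage hWo hO) (by
        intro x hx
        have hxc := frontier_subset_closure hx
        have hxN' : x ∉ N' := by
          rw [frontier, hN'o.interior_eq] at hx
          exact hx.2
        have hlt : u (x, t x) < S + η := by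
          by_contra h
          push Not at h
          exact hxN' (hKN' ⟨hNC (hN'N hxc), h⟩)
        have h1 := (hlim _ (hTU x hxc)).eventually (gt_mem_nhds hlt)
        obtain ⟨k, hk⟩ := h1.exists
        exact mem_iUnion.2 ⟨k, hf0 x (hNC (hN'N hxc)), hTU x hxc, hk⟩) (by
        intro i j
        refine ⟨max i j, ?_, ?_⟩
        · rintro x ⟨h1, h2, h3⟩
          exact ⟨h1, h2, lt_of_le_of_lt (hanti _ h2 (le_max_left i j)) h3⟩
        · rintro x ⟨h1, h2, h3⟩
          exact ⟨h1, h2, lt_of_le_of_lt (hanti _ h2 (le_max_right i j)) h3⟩)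
    exact ⟨k, fun x hx => (hk hx).2.2.le⟩
  have two_le : (2 : WithTop ℕ∞) ≤ ((⊤ : ℕ∞) : WithTop ℕ∞) := by norm_cast
  have hvs : ∀ x ∈ closure N', ContDiffAt ℝ 2 (v k) (x, t x) := fun x hx =>
    ((hv k).contDiffAt (hUo.mem_nhds (hTU x hx))).of_le two_le
  have htcd : ∀ x ∈ closure N', ContDiffAt ℝ 2 t x := fun x hx =>
    (((htan x (hf0 x (hNC (hN'N hx)))).contDiffAt (n := 2)).restrict_scalars ℝ)
  have hcomp : ∀ x ∈ closure N', ContDiffAt ℝ 2 (fun y => v k (y, t y)) x := fun x hx =>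
    ContDiffAt.comp (g := v k) x (hvs x hx) (contDiffAt_id.prodMk (htcd x hx))
  have hmp := max_principle (N := N') (g := fun y => v k (y, t y)) hN'o hN'c
    (fun x hx => (hcomp x hx).continuousAt) (fun x hx => hcomp x (subset_closure hx)) (by
      intro x hx
      have hxc := subset_closure hx
      rw [lap_comp (hvs x hxc) (htan x (hf0 x (hNC (hN'N hxc))))]
      have := hvl k _ (hTU x hxc) (1, deriv t x)
      positivity) hk x0 (hKN' hx0K)
  have hle : u (x0, t x0) ≤ v k (x0, t x0) :=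
    (hanti _ (hTU x0 (subset_closure (hKN' hx0K)))).le_of_tendsto
      (hlim _ (hTU x0 (subset_closure (hKN' hx0K)))) k
  have : g x0 = u (x0, t x0) := rfl
  rw [← this] at hle
  have h5 : g x0 = S + 2 * η := by rw [hη]; ring
  linarith

end Pool.Agent.TH604.WG
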